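import Pool.Agent.Y331.EP.Trans

/-!
# Semiconjugacies to abstract product targets
-/

set_option autoImplicit false
set_option linter.unusedSectionVars false

open Filter Topology Set Metric
open scoped Manifold ContDiff

namespace Pool.Agent.J4H56.HT

open Pool.Agent.H721R2 Pool.Agent.H789R2.AN Pool.Agent.H789R2.GP Pool.Agent.TH289
open Pool.Agent.TH289.K Pool.Agent.TH289.L Pool.Agent.Y331.EP
open Pool.Agent.TH761.L289 (light_unif)
open Pool.Agent.W740.TU (anosov_symm transitive_symm)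

/-- targets: expansive homeomorphisms with local and global product structure -/
structure Tgt {Y : Type*} [MetricSpace Y] [CompactSpace Y] (g : Y ≃ₜ Y) : Prop where
  exp : Expansive g
  lp : ∃ N₀ : ℕ, ∀ N ≥ N₀, ∃ c, LP (iterHomeo g N) c
  ulc : ULC Y
  gps : GPS g

theorem lp_symm {Y : Type*} [MetricSpace Y] [CompactSpace Y] {g : Y ≃ₜ Y} (h : Tgt g) :
    ∃ N₀ : ℕ, ∀ N ≥ N₀, ∃ c, LP (iterHomeo g.symm N) c := by
  obtain ⟨N₀, hN⟩ := h.lp
  refine ⟨N₀, fun N hN' => ?_⟩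
  obtain ⟨c, hc⟩ := hN N hN'
  exact ⟨c, hc.symm⟩

theorem expansive_symm {Y : Type*} [MetricSpace Y] [CompactSpace Y] {g : Y ≃ₜ Y}
    (h : Expansive g) : Expansive g.symm := by
  obtain ⟨𝒰, h𝒰, h1⟩ := h
  exact ⟨𝒰, h𝒰, fun x y hxy => h1 x y fun n => ⟨(hxy n).2, (hxy n).1⟩⟩

theorem Tgt.symm {Y : Type*} [MetricSpace Y] [CompactSpace Y] {g : Y ≃ₜ Y} (h : Tgt g) :
    Tgt g.symm where
  exp := expansive_symm h.exp
  lp := lp_symm h
  ulc := h.ulc
  gps := GPS.symm h.gps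

section abs

variable {X F : Type*} [MetricSpace X] [CompactSpace X] [NormedAddCommGroup F]
  [InnerProductSpace ℝ F] [FiniteDimensional ℝ F]
  {Y : Type*} [MetricSpace Y] [CompactSpace Y]

/-- Light semiconjugacies pull back global product structure. -/
theorem abs_light' {E : Type*} [NormedAddCommGroup E]
    [NormedSpace ℝ E] [ProperSpace E] [ChartedSpace E X] [ConnectedSpace X]
    (S : HypSys X F) {f : X ≃ₜ X} {f' : Y ≃ₜ Y} {N : ℕ} (hN : 1 ≤ N)
    (hf : S.g = iterHomeo f N) {c' : ℝ} (hk : LP (iterHomeo f' N) c') (hY : ULC Y) {h : X → Y}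
    (H : SC f f' h) (hL : Light f.symm h) (hG : GPS f') : GPS f := by
  obtain ⟨c, hg⟩ := exists_LP S
  have hX : ULC X := ulc_of_charted (X := X) (E := E)
  obtain ⟨c₂, hc₂, ⟨T⟩⟩ := iqs_of_gps hN rfl hk hY hG
  have H' : SC S.g (iterHomeo f' N) h := ⟨H.cont, fun x => by
    rw [hf]
    exact H.iter N x⟩
  have hL' : Light S.g.symm h := by
    rw [hf]
    exact light_iter hN hL
  have hlf := lf_of_light H' hX hg hk hc₂ T (fun ε hε => light_unif hg H' hL' hε)
  obtain ⟨c₁, hc₁, ⟨T₁⟩⟩ := exists_IQS hg hX hlf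
  exact gps_of_iqs hN hf hg hc₁ T₁

end abs

section manifold

variable {E : Type*} [NormedAddCommGroup E] [NormedSpace ℝ E] [FiniteDimensional ℝ E]

universe u

variable {M : Type u} [TopologicalSpace M] [T2Space M] [CompactSpace M] [ConnectedSpace M]
    [ChartedSpace E M] [IsManifold 𝓘(ℝ, E) ∞ M]

theorem man_light_unst' {Y : Type*} [MetricSpace Y] [CompactSpace Y]
    (f : Diffeomorph 𝓘(ℝ, E) 𝓘(ℝ, E) M M 1)
    (Es Eu : ∀ x : M, Submodule ℝ (TangentSpace 𝓘(ℝ, E) x)) (hA : IsAnosov f Es Eu)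
    (g : Y ≃ₜ Y) (hT : Tgt g)
    (h : M → Y) (hc : Continuous h) (hh : ∀ x, h (f x) = g (h x))
    (hi : Light f.toHomeomorph.symm h) : GPS f.toHomeomorph := by
  obtain ⟨m, ee, hee, hemb, hinje⟩ :=
    exists_embedding_euclidean_of_compact (I := 𝓘(ℝ, E)) (M := M)
  let _ : MetricSpace M := hemb.isEmbedding.comapMetricSpace ee
  have hiso : ∀ x y : M, dist x y = ‖ee x - ee y‖ := fun x y => dist_eq_norm (ee x) (ee y)
  have he1 : ContMDiff 𝓘(ℝ, E) (𝓡 m) 1 ee := hee.of_le (by simp)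
  obtain ⟨N₀, hN₀⟩ := hT.lp
  obtain ⟨N, ⟨⟨S, hg, -, -, -⟩, hN⟩, hN'⟩ :=
    (((exists_sys_ev hiso he1 hinje f Es Eu hA).and (eventually_ge_atTop 1)).and
      (eventually_ge_atTop N₀)).exists
  obtain ⟨c', hk⟩ := hN₀ N hN'
  have : ProperSpace E := FiniteDimensional.proper_real E
  exact abs_light' (E := E) S hN hg hk hT.ulc (h := h) ⟨hc, hh⟩ hi hT.gps

theorem man_light' {Y : Type*} [MetricSpace Y] [CompactSpace Y]
    (f : Diffeomorph 𝓘(ℝ, E) 𝓘(ℝ, E) M M 1)
    (Es Eu : ∀ x : M, Submodule ℝ (TangentSpace 𝓘(ℝ, E) x)) (hA : IsAnosov f Es Eu)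
    (g : Y ≃ₜ Y) (hT : Tgt g)
    (h : M → Y) (hc : Continuous h) (hh : ∀ x, h (f x) = g (h x))
    (hi : Light f.toHomeomorph h ∨ Light f.toHomeomorph.symm h) :
    TopTransitive f ∧ GPS f.toHomeomorph ∧
      ∃ π : E → M, IsCoveringMap π ∧ Function.Surjective π := by
  have key : GPS f.toHomeomorph := by
    rcases hi with hi | hi
    · have hh' : ∀ x, h (f.symm x) = g.symm (h x) := by
        intro x
        apply g.injective
        have h1 := hh (f.symm x)
        rw [f.apply_symm_apply] at h1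
        exact h1.symm.trans (g.apply_symm_apply (h x)).symm
      have h2 := man_light_unst' f.symm Eu Es (anosov_symm f Es Eu hA) g.symm hT.symm h hc hh' hi
      exact GPS.symm (show GPS f.toHomeomorph.symm from h2)
    · exact man_light_unst' f Es Eu hA g hT h hc hh hi
  obtain ⟨h1, h2⟩ := man_self f Es Eu hA key
  exact ⟨h1, key, h2⟩

end manifold

section metric

variable {E : Type*} [NormedAddCommGroup E] [NormedSpace ℝ E] [FiniteDimensional ℝ E]

universe u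

variable {M : Type u} [MetricSpace M] [CompactSpace M] [ConnectedSpace M]
    [ChartedSpace E M] [IsManifold 𝓘(ℝ, E) ∞ M]

/-- **Abstract targets.** -/
theorem man_trans_tgt {Y : Type*} [MetricSpace Y] [CompactSpace Y]
    (f : Diffeomorph 𝓘(ℝ, E) 𝓘(ℝ, E) M M 1)
    (Es Eu : ∀ x : M, Submodule ℝ (TangentSpace 𝓘(ℝ, E) x)) (hA : IsAnosov f Es Eu)
    (g : Y ≃ₜ Y) (hT : Tgt g)
    (h : M → Y) (hc : Continuous h) (hh : ∀ x, h (f x) = g (h x)) :
    List.TFAE [TopTransitive f ∧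
        Dynamics.coverEntropy f univ ≤ Dynamics.coverEntropy g (range h),
      ∀ x y, h x = h y → Asym f x y → Asym f.symm x y → x = y,
      ∃ B : ℕ, ∀ x, {y | h y = h x ∧ Asym f x y ∧ Asym f.symm x y}.encard ≤ B,
      ∀ y, (h ⁻¹' {y}).Countable,
      TopTransitive f ∧ GPS f.toHomeomorph ∧ ∃ N : ℕ, ∀ y, (h ⁻¹' {y}).encard ≤ N] := by
  have hgx := hT.exp
  obtain ⟨eg, hGe⟩ := ex_of_expansive hgx
  obtain ⟨ef, hE⟩ := ex_of_expansive (expansive_of_anosov f Es Eu hA)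
  have key := fun hT' : TopTransitive f =>
    abs_range hE (man_shad f Es Eu hA) (show TT f.toHomeomorph from hT') hGe hc hh
  have k34 : (∃ B : ℕ, ∀ x, {y | h y = h x ∧ Asym f x y ∧ Asym f.symm x y}.encard ≤ B) →
      ∀ y, (h ⁻¹' {y}).Countable := by
    intro h4 y
    obtain ⟨N, hN⟩ := man_bdd f Es Eu hA g hgx h hc hh h4
    exact (Set.finite_of_encard_le_coe (hN y)).countable
  have k45 : (∀ y, (h ⁻¹' {y}).Countable) →
      TopTransitive f ∧ GPS f.toHomeomorph ∧ ∃ N : ℕ, ∀ y, (h ⁻¹' {y}).encard ≤ N := by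
    intro h3
    obtain ⟨h1, h2, -⟩ := man_light' f Es Eu hA g hT h hc hh
      (Or.inl (light_of_countable f.toHomeomorph h h3))
    exact ⟨h1, h2, ((key h1).out 1 3).1 h3⟩
  tfae_have 2 → 3 := one_of_sep f.toHomeomorph h
  tfae_have 3 → 4 := k34
  tfae_have 4 → 5 := k45
  tfae_have 5 → 1 := fun ⟨h1, _, h3⟩ => ⟨h1, ((key h1).out 0 3).2 h3⟩
  tfae_have 1 → 2 := fun ⟨h1, h2⟩ =>
    (hm_all_iff f.toHomeomorph h).1 (((key h1).out 0 2).1 h2)
  tfae_finish

end metric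

end Pool.Agent.J4H56.HT
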