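import Pool.Agent.J4H56.HT.Stm

set_option autoImplicit false

open Filter Topology Set Metric unitInterval

namespace Pool.Agent.J4H56.HT

open Pool.Agent.H789R2.AN Pool.Agent.H789R2.GP Pool.Agent.TH289 Pool.Agent.TH289.K
open Pool.Agent.W740.TC (torusMap)

theorem torusMap_sub {k : ℕ} (A : Matrix (Fin k) (Fin k) ℤ) (x y : T k) :
    torusMap A (x - y) = torusMap A x - torusMap A y := by
  funext i
  show ∑ j, A i j • (x j - y j) = ∑ j, A i j • x j - ∑ j, A i j • y j
  rw [← Finset.sum_sub_distrib]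
  exact Finset.sum_congr rfl fun j _ => smul_sub _ _ _

theorem tor_sub {k : ℕ} {A A' : Matrix (Fin k) (Fin k) ℤ} (h : HD A A') (x y : T k) :
    tor h (x - y) = tor h x - tor h y := torusMap_sub A x y

theorem tor_iter_sub {k : ℕ} {A A' : Matrix (Fin k) (Fin k) ℤ} (h : HD A A') (n : ℕ)
    (x y : T k) : (tor h)^[n] (x - y) = (tor h)^[n] x - (tor h)^[n] y := by
  induction n with
  | zero => rfl
  | succ n ih =>
    rw [Function.iterate_succ_apply', Function.iterate_succ_apply',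
      Function.iterate_succ_apply', ih, tor_sub]

theorem tor_dist {k : ℕ} {A A' : Matrix (Fin k) (Fin k) ℤ} (h : HD A A') (n : ℕ)
    (x y : T k) : dist ((tor h)^[n] x) ((tor h)^[n] y) = ‖(tor h)^[n] (x - y)‖ := by
  rw [tor_iter_sub, dist_eq_norm]

theorem t_T3 : S_T3 := by
  intro k A A' h α β hα hβ h0
  refine ⟨⟨fun p => α p.1 + β p.2 - α 0, by fun_prop⟩, fun s => ?_, fun t => ?_, fun 𝒰 h𝒰 => ?_⟩
  · show α s + β 0 - α 0 = α s
    rw [h0]
    abel
  · show α 0 + β t - α 0 = β t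
    abel
  · rw [nhdsSet_diagonal_eq_uniformity, Metric.mem_uniformity_dist] at h𝒰
    obtain ⟨ε, hε, h2⟩ := h𝒰
    have hV : {p : T k × T k | dist p.1 p.2 < ε} ∈ 𝓝ˢ (diagonal (T k)) := by
      rw [nhdsSet_diagonal_eq_uniformity]
      exact Metric.dist_mem_uniformity hε
    filter_upwards [hα _ hV, hβ _ hV] with n h3 h4 s t
    refine ⟨h2 ?_, h2 ?_⟩
    · have h5 : dist ((tor h)^[n] (α 0)) ((tor h)^[n] (α s)) < ε := h3 s
      rw [tor_dist] at h5 ⊢
      have e : (α 0 + β t - α 0) - (α s + β t - α 0) = α 0 - α s := by abel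
      show ‖(tor h)^[n] ((α 0 + β t - α 0) - (α s + β t - α 0))‖ < ε
      rw [e]
      exact h5
    · have h5 : dist ((tor h).symm^[n] (β 0)) ((tor h).symm^[n] (β t)) < ε := h4 t
      rw [tor_symm, tor_dist] at h5 ⊢
      have e : (α s + β 0 - α 0) - (α s + β t - α 0) = β 0 - β t := by abel
      show ‖(tor h.symm)^[n] ((α s + β 0 - α 0) - (α s + β t - α 0))‖ < ε
      rw [e]
      exact h5

end Pool.Agent.J4H56.HT
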