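import Pool.Agent.W740.TC.Conv
import Pool.Agent.W740.TC.Hom
import Pool.Agent.J4H56.HT.T3

set_option autoImplicit false
set_option linter.unusedSectionVars false

open Filter Topology Set Metric unitInterval

namespace Pool.Agent.J4H56.HT

open Pool.Agent.H789R2.AN Pool.Agent.H789R2.GP Pool.Agent.TH289 Pool.Agent.TH289.K
open Pool.Agent.W740.TC (torusMap ell coe_ell ell_coe norm_ell ell_cont coe_am exists_e small_of_mod)

variable {k : ℕ}

theorem pr_mv (A : Matrix (Fin k) (Fin k) ℤ) (v : Fin k → ℝ) :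
    pr (mv A v) = torusMap A (pr v) := by
  funext i
  exact coe_am A v i

theorem pr_sub (v w : Fin k → ℝ) : pr (v - w) = pr v - pr w := by
  funext i
  rfl

theorem pr_add (v w : Fin k → ℝ) : pr (v + w) = pr v + pr w := by
  funext i
  rfl

theorem pr_zero : pr (0 : Fin k → ℝ) = 0 := by
  funext i
  rfl

theorem pr_cont : Continuous (pr : (Fin k → ℝ) → T k) :=
  continuous_pi fun i => (AddCircle.continuous_mk' (1 : ℝ)).comp (continuous_apply i)

/-- the small lift -/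
noncomputable def sm (x : T k) : Fin k → ℝ := fun i => ell (x i)

theorem pr_sm (x : T k) : pr (sm x) = x := by
  funext i
  exact coe_ell (x i)

theorem norm_sm (x : T k) : ‖sm x‖ = ‖x‖ := by
  rw [Pi.norm_def, Pi.norm_def]
  congr 1
  refine Finset.sup_congr rfl fun i _ => ?_
  apply NNReal.eq
  show ‖ell (x i)‖ = ‖x i‖
  rw [Real.norm_eq_abs]
  exact norm_ell (x i)

theorem sm_pr {v : Fin k → ℝ} (h : ‖v‖ < 1 / 2) : sm (pr v) = v := by
  funext i
  exact ell_coe ((norm_le_pi_norm v i).trans_lt h)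

theorem norm_pr (v : Fin k → ℝ) : ‖pr v‖ ≤ ‖v‖ := by
  rw [pi_norm_le_iff_of_nonneg (norm_nonneg _)]
  intro i
  refine le_trans ?_ (norm_le_pi_norm v i)
  show ‖((v i : ℝ) : AddCircle (1 : ℝ))‖ ≤ ‖v i‖
  exact QuotientAddGroup.norm_mk_le_norm

theorem mv_sub (A : Matrix (Fin k) (Fin k) ℤ) (v w : Fin k → ℝ) :
    mv A (v - w) = mv A v - mv A w := by
  funext i
  simp [mv, mul_sub, Finset.sum_sub_distrib]

theorem mv_zero (A : Matrix (Fin k) (Fin k) ℤ) : mv A 0 = 0 := by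
  funext i
  simp [mv]

theorem mv_iter_sub (A : Matrix (Fin k) (Fin k) ℤ) (n : ℕ) (v w : Fin k → ℝ) :
    (mv A)^[n] (v - w) = (mv A)^[n] v - (mv A)^[n] w := by
  induction n generalizing v w with
  | zero => rfl
  | succ n ih => rw [Function.iterate_succ_apply, Function.iterate_succ_apply,
      Function.iterate_succ_apply, mv_sub, ih]

theorem mv_iter_zero (A : Matrix (Fin k) (Fin k) ℤ) (n : ℕ) : (mv A)^[n] 0 = 0 := by
  induction n with
  | zero => rfl
  | succ n ih => rw [Function.iterate_succ_apply, mv_zero, ih]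

theorem mv_cont (A : Matrix (Fin k) (Fin k) ℤ) : Continuous (mv A) := by
  unfold mv
  fun_prop

theorem mv_mul {A A' : Matrix (Fin k) (Fin k) ℤ} (h : A' * A = 1) (v : Fin k → ℝ) :
    mv A' (mv A v) = v := by
  funext i
  show ∑ j, (A' i j : ℝ) * ∑ m, (A j m : ℝ) * v m = v i
  have h2 : ∑ j, (A' i j : ℝ) * ∑ m, (A j m : ℝ) * v m =
      ∑ m, (∑ j, (A' i j : ℝ) * (A j m : ℝ)) * v m := by
    simp only [Finset.mul_sum, Finset.sum_mul, mul_assoc]
    rw [Finset.sum_comm]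
  have h3 : ∀ m, ∑ j, (A' i j : ℝ) * (A j m : ℝ) =
      (((1 : Matrix (Fin k) (Fin k) ℤ) i m : ℤ) : ℝ) := fun m => by
    rw [← h, Matrix.mul_apply]
    push_cast
    rfl
  rw [h2]
  simp only [h3, Matrix.one_apply]
  simp

theorem mv_iter_mul {A A' : Matrix (Fin k) (Fin k) ℤ} (h : A' * A = 1) (n : ℕ)
    (v : Fin k → ℝ) : (mv A')^[n] ((mv A)^[n] v) = v := by
  induction n with
  | zero => rfl
  | succ n ih =>
    rw [Function.iterate_succ_apply, Function.iterate_succ_apply' (mv A), mv_mul h, ih]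

theorem exists_bd (A A' : Matrix (Fin k) (Fin k) ℤ) : ∃ L : ℝ, 1 ≤ L ∧
    (∀ v, ‖mv A v‖ ≤ L * ‖v‖) ∧ ∀ v, ‖mv A' v‖ ≤ L * ‖v‖ := by
  have key : ∀ B : Matrix (Fin k) (Fin k) ℤ, ∀ v, ‖mv B v‖ ≤ (∑ i, ∑ j, |(B i j : ℝ)|) * ‖v‖ := by
    intro B v
    have h0 : 0 ≤ ∑ i, ∑ j, |(B i j : ℝ)| :=
      Finset.sum_nonneg fun i _ => Finset.sum_nonneg fun j _ => abs_nonneg _
    rw [pi_norm_le_iff_of_nonneg (mul_nonneg h0 (norm_nonneg _))]
    intro i
    calc ‖mv B v i‖ ≤ ∑ j, ‖(B i j : ℝ) * v j‖ := norm_sum_le _ _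
      _ ≤ ∑ j, |(B i j : ℝ)| * ‖v‖ := by
          refine Finset.sum_le_sum fun j _ => ?_
          rw [norm_mul, Real.norm_eq_abs]
          exact mul_le_mul_of_nonneg_left (norm_le_pi_norm v j) (abs_nonneg _)
      _ = (∑ j, |(B i j : ℝ)|) * ‖v‖ := by rw [Finset.sum_mul]
      _ ≤ (∑ i, ∑ j, |(B i j : ℝ)|) * ‖v‖ := by
          refine mul_le_mul_of_nonneg_right ?_ (norm_nonneg _)
          exact Finset.single_le_sum (f := fun i => ∑ j, |(B i j : ℝ)|)
            (fun i _ => Finset.sum_nonneg fun j _ => abs_nonneg _) (Finset.mem_univ i)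
  refine ⟨max 1 (max (∑ i, ∑ j, |(A i j : ℝ)|) (∑ i, ∑ j, |(A' i j : ℝ)|)), le_max_left _ _,
    fun v => ?_, fun v => ?_⟩
  · refine (key A v).trans (mul_le_mul_of_nonneg_right ?_ (norm_nonneg _))
    exact (le_max_left _ _).trans (le_max_right _ _)
  · refine (key A' v).trans (mul_le_mul_of_nonneg_right ?_ (norm_nonneg _))
    exact (le_max_right _ _).trans (le_max_right _ _)

theorem tor_pr {A A' : Matrix (Fin k) (Fin k) ℤ} (h : HD A A') (n : ℕ) (v : Fin k → ℝ) :
    (tor h)^[n] (pr v) = pr ((mv A)^[n] v) := by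
  induction n with
  | zero => rfl
  | succ n ih =>
    rw [Function.iterate_succ_apply', Function.iterate_succ_apply', ih, pr_mv]
    rfl

/-- orbits of small lifts -/
theorem sm_iter {A A' : Matrix (Fin k) (Fin k) ℤ} (h : HD A A') {L : ℝ} (hL : 0 ≤ L)
    (hb : ∀ v, ‖mv A v‖ ≤ L * ‖v‖) {c : ℝ} (hc : L * c < 1 / 2) (d : T k)
    (hd : ∀ n, ‖(tor h)^[n] d‖ ≤ c) (n : ℕ) : (mv A)^[n] (sm d) = sm ((tor h)^[n] d) := by
  induction n with
  | zero => rfl
  | succ n ih =>
    have h1 : ‖mv A (sm ((tor h)^[n] d))‖ < 1 / 2 := by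
      refine lt_of_le_of_lt (hb _) ?_
      rw [norm_sm]
      exact lt_of_le_of_lt (mul_le_mul_of_nonneg_left (hd n) hL) hc
    rw [Function.iterate_succ_apply', ih, Function.iterate_succ_apply', ← sm_pr h1, pr_mv, pr_sm]
    rfl

theorem t_H3 : S_H3 := by
  intro k A A' hD v hv hor
  obtain ⟨hm, hm', C, l, hC, hl, hl', hf, hb, -⟩ := id hD
  have h1 := hf v hv
  rcases hor with h0 | hv'
  · have ht : Tendsto (fun n : ℕ => C * l ^ n * ‖v‖) atTop (𝓝 0) := by
      have := ((tendsto_pow_atTop_nhds_zero_of_lt_one hl.le hl').const_mul C).mul_const ‖v‖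
      simpa using this
    obtain ⟨n, hn⟩ := ((tendsto_order.mp ht).2 (1 / 2) (by norm_num)).exists
    have h2 : pr ((mv A)^[n] v) = 0 := by
      rw [← tor_pr hD, h0]
      have h3 := tor_iter_sub hD n 0 0
      rw [sub_self, sub_self] at h3
      exact h3
    have h4 : (mv A)^[n] v = 0 := by
      have h5 := sm_pr (lt_of_le_of_lt (h1 n) hn)
      rw [h2] at h5
      have h6 := sm_pr (v := (0 : Fin k → ℝ)) (by rw [norm_zero]; norm_num)
      rw [pr_zero] at h6
      rw [← h5, h6]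
    have h7 := mv_iter_mul hm' n v
    rw [h4, mv_iter_zero] at h7
    exact h7.symm
  · have h2 := hb v hv'
    obtain ⟨K, n₀, hK⟩ := hv
    have h3 : ∀ n, ‖v‖ ≤ C * l ^ n * (C * l ^ n * ‖v‖) := by
      intro n
      have h4 : ∃ (K : ℝ) (n₀ : ℕ), ∀ m ≥ n₀, ‖(mv A)^[m] ((mv A')^[n] v)‖ ≤ K := by
        refine ⟨K, n₀ + n, fun m hm1 => ?_⟩
        obtain ⟨j, rfl⟩ := Nat.exists_eq_add_of_le (show n ≤ m by omega)
        rw [Nat.add_comm n j, Function.iterate_add_apply, mv_iter_mul hm]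
        exact hK j (by omega)
      have h5 := hf _ h4 n
      rw [mv_iter_mul hm] at h5
      exact h5.trans (mul_le_mul_of_nonneg_left (h2 n) (by positivity))
    have ht : Tendsto (fun n : ℕ => C * l ^ n * (C * l ^ n * ‖v‖)) atTop (𝓝 0) := by
      have e1 := (tendsto_pow_atTop_nhds_zero_of_lt_one hl.le hl').const_mul C
      have := e1.mul (e1.mul_const ‖v‖)
      simpa using this
    have h6 : ‖v‖ ≤ 0 := ge_of_tendsto ht (Eventually.of_forall h3)
    exact norm_le_zero_iff.mp h6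

theorem t_H2 : S_H2 := by
  intro k γ v hv
  have H : ContinuousMap.Homotopic γ (ContinuousMap.const I (γ 0)) := by
    refine ⟨⟨⟨fun p => γ (⟨(1 - (p.1 : ℝ)) * (p.2 : ℝ), ?_, ?_⟩), ?_⟩, ?_, ?_⟩⟩
    · exact mul_nonneg (by linarith [p.1.2.2]) p.2.2.1
    · exact mul_le_one₀ (by linarith [p.1.2.1]) p.2.2.1 p.2.2.2
    · exact γ.continuous.comp (Continuous.subtype_mk (by fun_prop) _)
    · intro t
      show γ _ = γ t
      congr 1
      apply Subtype.ext
      show (1 - ((0 : I) : ℝ)) * (t : ℝ) = t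
      simp
    · intro t
      show γ _ = γ 0
      congr 1
      apply Subtype.ext
      show (1 - ((1 : I) : ℝ)) * (t : ℝ) = ((0 : I) : ℝ)
      simp
  obtain ⟨e, he1, he2⟩ := exists_e H
  have he3 : ∀ t, γ t = γ 0 + pr (e t) := fun t => by
    funext i
    exact he2 t i
  have he0 : pr (e 0) = 0 := by
    have := he3 0
    exact (left_eq_add.mp this)
  refine ⟨⟨fun t => v + (e t - e 0), by fun_prop⟩, ?_, fun t => ?_⟩
  · show v + (e 0 - e 0) = v
    rw [sub_self, add_zero]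
  · show pr (v + (e t - e 0)) = γ t
    rw [pr_add, pr_sub, he0, sub_zero, hv, he3 t]

theorem t_H1 : S_H1 := by
  intro k A A' hD X _ _ f h hc hh α θ hα hθ
  have hu : UniformContinuous h := CompactSpace.uniformContinuous_of_continuous hc
  obtain ⟨δ, hδ, h1⟩ := Metric.uniformContinuous_iff.mp hu (1 / 4) (by norm_num)
  have hV : {p : X × X | dist p.1 p.2 < δ} ∈ 𝓝ˢ (diagonal X) := by
    rw [nhdsSet_diagonal_eq_uniformity]
    exact Metric.dist_mem_uniformity hδ
  obtain ⟨n₀, hn₀⟩ := eventually_atTop.mp (hα _ hV)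
  have hit : ∀ (n : ℕ) (x : X), h (f^[n] x) = (tor hD)^[n] (h x) := by
    intro n x
    induction n with
    | zero => rfl
    | succ n ih =>
      rw [Function.iterate_succ_apply', hh, ih, Function.iterate_succ_apply']
      rfl
  refine ⟨1 / 4, n₀, fun n hn => ?_⟩
  have hcont : Continuous fun t => (mv A)^[n] (θ t - θ 0) :=
    ((mv_cont A).iterate n).comp (θ.continuous.sub continuous_const)
  rw [pi_norm_le_iff_of_nonneg (by norm_num)]
  intro i
  have h2 := small_of_mod (fun t => (mv A)^[n] (θ t - θ 0) i)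
    ((continuous_apply i).comp hcont) (by
      show (mv A)^[n] (θ 0 - θ 0) i = 0
      rw [sub_self, mv_iter_zero]
      rfl) (fun t => by
      have h3 : pr ((mv A)^[n] (θ t - θ 0)) = h (f^[n] (α t)) - h (f^[n] (α 0)) := by
        rw [← tor_pr hD, pr_sub, hθ, hθ, tor_iter_sub, hit, hit]
      have h4 : dist (h (f^[n] (α 0))) (h (f^[n] (α t))) < 1 / 4 := h1 (hn₀ n hn t)
      rw [dist_comm, dist_eq_norm, ← h3] at h4
      exact (norm_le_pi_norm (pr ((mv A)^[n] (θ t - θ 0))) i).trans_lt h4) 1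
  rw [Real.norm_eq_abs]
  exact h2.le

end Pool.Agent.J4H56.HT
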