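import Pool.Agent.J4H56.HT.One

/-!
# Homoclinic points of one periodic point
-/

set_option autoImplicit false
set_option linter.unusedSectionVars false

open Filter Topology Set

namespace Pool.Agent.J4H56.HT

open Pool.Agent.Y331.EP

variable {X Y : Type*} [MetricSpace X] [MetricSpace Y]

theorem per_zp {f : X ≃ₜ X} {p : X} {q : ℕ} (hp : f^[q] p = p) (j : ℤ) (n : ℤ) :
    (f ^ (n + q * j)) p = (f ^ n) p := by
  have h1 : ∀ j : ℕ, (f ^ ((q : ℤ) * j)) p = p := by
    intro j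
    have : ((q : ℤ) * j) = ((q * j : ℕ) : ℤ) := by push_cast; ring
    rw [this, zp_nat, Function.iterate_mul]
    exact Function.iterate_fixed hp j
  have h2 : ∀ j : ℤ, (f ^ ((q : ℤ) * j)) p = p := by
    intro j
    rcases Int.natAbs_eq j with h | h
    · rw [h]
      exact h1 _
    · rw [h]
      have h3 := h1 j.natAbs
      have h4 : (f ^ ((q : ℤ) * -(j.natAbs : ℤ))) ((f ^ ((q : ℤ) * j.natAbs)) p) = p := by
        rw [show (f ^ ((q : ℤ) * -(j.natAbs : ℤ))) ((f ^ ((q : ℤ) * j.natAbs)) p) =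
          (f ^ ((q : ℤ) * -(j.natAbs : ℤ)) * f ^ ((q : ℤ) * j.natAbs)) p from rfl, ← zpow_add]
        have : (q : ℤ) * -(j.natAbs : ℤ) + q * j.natAbs = 0 := by ring
        rw [this, zpow_zero]
        rfl
      rwa [h3] at h4
  rw [zpow_add]
  show (f ^ n) ((f ^ ((q : ℤ) * j)) p) = (f ^ n) p
  rw [h2]

/-- **Homoclinic points are dense.** -/
theorem dense_hom [CompactSpace X] [ConnectedSpace X] {f : X ≃ₜ X} {ef : ℝ}
    (hE : Ex f ef) (hS : Shad f) (hT : TT f) {p : X} {q : ℕ} (hq : 1 ≤ q) (hp : f^[q] p = p)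
    (x0 : X) {δ : ℝ} (hδ : 0 < δ) : ∃ x, dist x x0 < δ ∧ Hm f p x := by
  have hef := hE.pos
  set ε := min (δ / 2) ef with hεdef
  have hε : 0 < ε := lt_min (by positivity) hef
  have hεδ : ε < δ := by
    have := min_le_left (δ / 2) ef
    rw [hεdef]
    linarith
  have hεf : ε ≤ ef := min_le_right _ _
  obtain ⟨δ₁, hδ₁, hsh⟩ := hS ε hε
  obtain ⟨N, hN⟩ := exists_mx hT hδ₁
  set τ := q * (N + 1) with hτ
  have hτN : N ≤ τ := by
    rw [hτ]
    nlinarith
  have hτ1 : 1 ≤ τ := by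
    rw [hτ]
    nlinarith
  obtain ⟨a, ha1, ha2, ha3⟩ := hN τ hτN p x0
  obtain ⟨b, hb1, hb2, hb3⟩ := hN τ hτN x0 p
  have hfp : (f ^ (τ : ℤ)) p = p := by
    rw [zp_nat, hτ, Function.iterate_mul]
    exact Function.iterate_fixed hp _
  have hfp' : ∀ n : ℤ, (f ^ (n + τ)) p = (f ^ n) p := fun n => by
    rw [zpow_add]
    show (f ^ n) ((f ^ (τ : ℤ)) p) = _
    rw [hfp]
  have hfm : (f ^ (-(τ : ℤ))) p = p := by
    have h1 := hfp' (-(τ : ℤ))
    rw [neg_add_cancel, zpow_zero] at h1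
    exact h1.symm
  -- the pseudo-orbit
  set P : ℤ → X := fun n => if n < -(τ : ℤ) then (f ^ n) p else if n ≤ 0 then a (n + τ).toNat
    else if n ≤ τ then b n.toNat else (f ^ n) p with hP
  have P1 : ∀ n : ℤ, n < -(τ : ℤ) → P n = (f ^ n) p := fun n hn => if_pos hn
  have P2 : ∀ n : ℤ, -(τ : ℤ) ≤ n → n ≤ 0 → P n = a (n + τ).toNat := fun n hn hn' => by
    show (if n < -(τ : ℤ) then (f ^ n) p else if n ≤ 0 then a (n + τ).toNat
      else if n ≤ τ then b n.toNat else (f ^ n) p) = _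
    rw [if_neg (by omega), if_pos hn']
  have P3 : ∀ n : ℤ, 0 ≤ n → n ≤ τ → P n = b n.toNat := fun n hn hn' => by
    show (if n < -(τ : ℤ) then (f ^ n) p else if n ≤ 0 then a (n + τ).toNat
      else if n ≤ τ then b n.toNat else (f ^ n) p) = _
    rw [if_neg (by omega)]
    by_cases h0 : n ≤ 0
    · have h0' : n = 0 := by omega
      subst h0'
      rw [if_pos le_rfl]
      show a ((0 : ℤ) + τ).toNat = b (0 : ℤ).toNat
      rw [zero_add, Int.toNat_natCast, Int.toNat_zero, ha3, hb2]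
    · rw [if_neg h0, if_pos hn']
  have P4 : ∀ n : ℤ, (τ : ℤ) < n → P n = (f ^ n) p := fun n hn => by
    show (if n < -(τ : ℤ) then (f ^ n) p else if n ≤ 0 then a (n + τ).toNat
      else if n ≤ τ then b n.toNat else (f ^ n) p) = _
    rw [if_neg (by omega), if_neg (by omega), if_neg (by omega)]
  have P1' : P (-(τ : ℤ)) = (f ^ (-(τ : ℤ))) p := by
    rw [P2 _ le_rfl (by omega), neg_add_cancel, Int.toNat_zero, ha2, hfm]
  have P4' : P (τ : ℤ) = (f ^ (τ : ℤ)) p := by
    rw [P3 _ (by omega) le_rfl, Int.toNat_natCast, hb3, hfp]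
  have hjump : ∀ n : ℤ, dist (f (P n)) (P (n + 1)) ≤ δ₁ := by
    intro n
    rcases lt_or_ge n (-(τ : ℤ)) with h1 | h1
    · have e1 : P (n + 1) = (f ^ (n + 1)) p := by
        rcases lt_or_eq_of_le (show n + 1 ≤ -(τ : ℤ) by omega) with h2 | h2
        · exact P1 _ h2
        · rw [h2]
          exact P1'
      rw [P1 n h1, e1, zp_succ, dist_self]
      exact hδ₁.le
    · rcases lt_or_ge n 0 with h2 | h2
      · rw [P2 n h1 (by omega), P2 (n + 1) (by omega) (by omega)]
        have h3 := ha1 (n + τ).toNat (by omega)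
        have e1 : (n + τ).toNat + 1 = (n + 1 + τ).toNat := by omega
        rwa [e1] at h3
      · rcases lt_or_ge n (τ : ℤ) with h3 | h3
        · rw [P3 n h2 (by omega), P3 (n + 1) (by omega) (by omega)]
          have h4 := hb1 n.toNat (by omega)
          have e1 : n.toNat + 1 = (n + 1).toNat := by omega
          rwa [e1] at h4
        · have e1 : P n = (f ^ n) p := by
            rcases lt_or_eq_of_le h3 with h4 | h4
            · exact P4 _ h4
            · rw [← h4]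
              exact P4'
          rw [e1, P4 (n + 1) (by omega), zp_succ, dist_self]
          exact hδ₁.le
  obtain ⟨y, hy, hyP⟩ := hsh P hjump
  have hyn : ∀ n, y n = (f ^ n) (y 0) := fun n => orb_eq f hy n
  refine ⟨y 0, ?_, ?_, ?_⟩
  · have h1 := hyP 0
    rw [P3 0 le_rfl (by omega), Int.toNat_zero, hb2, dist_comm] at h1
    exact lt_of_le_of_lt h1 hεδ
  · refine tend_of_close hE (L := τ + 1) fun n hn => ?_
    rw [← zp_nat, ← zp_nat, ← hyn]
    have h1 := hyP (n : ℤ)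
    rw [P4 _ (by omega)] at h1
    exact h1.trans hεf
  · refine tend_of_close hE.symm (L := τ + 1) fun n hn => ?_
    rw [← zp_neg, ← zp_neg, ← hyn]
    have h1 := hyP (-(n : ℤ))
    rw [P1 _ (by omega)] at h1
    exact h1.trans hεf

theorem hm_trans {f : X ≃ₜ X} {x y z : X} (h1 : Hm f x y) (h2 : Hm f y z) : Hm f x z := by
  refine ⟨?_, ?_⟩
  · have h3 := h1.1.add h2.1
    rw [add_zero] at h3
    exact squeeze_zero (fun _ => dist_nonneg) (fun n => dist_triangle _ (f^[n] y) _) h3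
  · have h3 := h1.2.add h2.2
    rw [add_zero] at h3
    exact squeeze_zero (fun _ => dist_nonneg) (fun n => dist_triangle _ (f.symm^[n] y) _) h3

/-- **One periodic point is enough.** -/
theorem inj_of_per [CompactSpace X] [ConnectedSpace X] {f : X ≃ₜ X} {g : Y ≃ₜ Y} {h : X → Y}
    {ef eg : ℝ} (hE : Ex f ef) (hS : Shad f) (hG : Ex g eg) (hc : Continuous h)
    (hh : ∀ x, h (f x) = g (h x)) (hT : TT f) {p : X} {q : ℕ} (hq : 1 ≤ q) (hp : f^[q] p = p)
    (hinj : ∀ x y, Hm f p x → Hm f p y → h x = h y → x = y) {x0 y0 : X}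
    (hxy : h x0 = h y0) (hm : Hm f x0 y0) : x0 = y0 := by
  by_contra hne
  obtain ⟨δ, hδ, L, m₀, hL, hpt⟩ := exists_partner hE hS hG hc hh hne hxy hm
  obtain ⟨x, hx1, hx2⟩ := dense_hom hE hS hT hq hp x0 hδ
  obtain ⟨y, hy1, hy2, hy3, -⟩ := hpt x hx1
  have h1 := hinj x y hx2 (hm_trans hx2 hy2) hy1.symm
  rw [h1, dist_self] at hy3
  have := hE.pos
  linarith

end Pool.Agent.J4H56.HT
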