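import Pool.Agent.J4H56.HT.Fin2
import Pool.Agent.J4H56.HT.Per

/-!
# Bounded multiplicity at one periodic point
-/

set_option autoImplicit false
set_option linter.unusedSectionVars false

open Filter Topology Set

namespace Pool.Agent.J4H56.HT

open Pool.Agent.Y331.EP

variable {X Y : Type*} [MetricSpace X] [MetricSpace Y]

theorem h_zp {f : X ≃ₜ X} {g : Y ≃ₜ Y} {h : X → Y} (hh : ∀ x, h (f x) = g (h x)) (n : ℤ)
    (a : X) : h ((f ^ n) a) = (g ^ n) (h a) := by
  have e1 := orb_eq g (hz hh a) n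
  have e3 : h ((f ^ n) a) = (g ^ n) (h ((f ^ (0 : ℤ)) a)) := e1
  rw [e3, zpow_zero]
  rfl

theorem hm_shift {f : X ≃ₜ X} {x z : X} (n : ℕ) (h : Hm f (f^[n] x) z) :
    Hm f x (f.symm^[n] z) := by
  refine ⟨?_, ?_⟩
  · have h1 : Tendsto (fun j : ℕ => dist (f^[j + n] x) (f^[j + n] (f.symm^[n] z))) atTop (𝓝 0) := by
      refine h.1.congr fun j => ?_
      rw [Function.iterate_add_apply, Function.iterate_add_apply,
        (Function.LeftInverse.iterate f.apply_symm_apply n) z]
    exact (tendsto_add_atTop_iff_nat n).1 h1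
  · have h2 := (tendsto_add_atTop_iff_nat n).2 h.2
    refine h2.congr fun j => ?_
    rw [Function.iterate_add_apply, Function.iterate_add_apply]
    rw [(Function.LeftInverse.iterate f.symm_apply_apply n) x]

/-- **Bounded multiplicity on the homoclinic points of one periodic point is enough.** -/
theorem inj_of_bdd_per [CompactSpace X] [ConnectedSpace X] {f : X ≃ₜ X} {g : Y ≃ₜ Y} {h : X → Y}
    {ef eg : ℝ} (hE : Ex f ef) (hS : Shad f) (hG : Ex g eg) (hc : Continuous h)
    (hh : ∀ x, h (f x) = g (h x)) (hT : TT f) {p : X} {q : ℕ} (hq : 1 ≤ q) (hp : f^[q] p = p)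
    (B : ℕ) (hB : ∀ y, {x | Hm f p x ∧ h x = y}.encard ≤ B) {x0 y0 : X}
    (hxy : h x0 = h y0) (hm : Hm f x0 y0) : x0 = y0 := by
  by_contra hne
  obtain ⟨δ, hδ, L, m₀, hL, hpt⟩ := exists_partner hE hS hG hc hh hne hxy hm
  obtain ⟨w, hw⟩ := exists_rec (g := f) hT
  have hfreq : ∃ᶠ n : ℕ in atTop, dist (f^[n] w) x0 < δ / 2 :=
    (hw x0).frequently (Metric.ball_mem_nhds x0 (half_pos hδ))
  obtain ⟨ψ, hψ, hψ2⟩ := Filter.extraction_of_frequently_atTop hfreq
  have hgap : ∀ a m : ℕ, ψ a + m ≤ ψ (a + m) := by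
    intro a m
    induction m with
    | zero => exact le_rfl
    | succ m ih =>
      have := hψ (Nat.lt_succ_self (a + m))
      rw [Nat.succ_eq_add_one, Nat.add_assoc] at this
      omega
  set t : ℕ → ℕ := fun j => ψ (2 * L * (j + 1)) with ht
  have htL : ∀ j, L ≤ t j := fun j => by
    have h1 := hψ.id_le (2 * L * (j + 1))
    have h2 : L ≤ 2 * L * (j + 1) := by nlinarith
    exact h2.trans h1
  have htg : ∀ j j', j < j' → t j + 2 * L ≤ t j' := by
    intro j j' hjj
    have h1 := hgap (2 * L * (j + 1)) (2 * L * (j' - j))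
    have h2 : 2 * L * (j + 1) + 2 * L * (j' - j) = 2 * L * (j' + 1) := by
      rw [← Nat.mul_add]
      congr 1
      omega
    rw [h2] at h1
    have h3 : 2 * L ≤ 2 * L * (j' - j) := Nat.le_mul_of_pos_right _ (by omega)
    show ψ (2 * L * (j + 1)) + 2 * L ≤ ψ (2 * L * (j' + 1))
    omega
  obtain ⟨δ', hδ', hnear⟩ := near_iter (f := f) w (t (B + 1)) (η := δ / 4) (by positivity)
  obtain ⟨x, hx1, hx2⟩ := dense_hom hE hS hT hq hp w hδ'
  have hvis : ∀ j : Fin (B + 1), dist (f^[t j] x) x0 < δ := by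
    intro j
    have h1 := hnear x hx1 (t j : ℤ) (by
      have := htg j (B + 1) j.2
      omega)
    rw [zp_nat, zp_nat] at h1
    have h2 := hψ2 (2 * L * ((j : ℕ) + 1))
    have h3 := dist_triangle (f^[t j] x) (f^[t j] w) x0
    have h4 : dist (f^[t j] w) x0 < δ / 2 := h2
    linarith
  choose z hz1 hz2 hz3 hz4 using fun j : Fin (B + 1) => hpt (f^[t j] x) (hvis j)
  set y : Fin (B + 1) → X := fun j => f.symm^[t j] (z j) with hy
  have hyz : ∀ j (n : ℤ), (f ^ n) (y j) = (f ^ (n - t j)) (z j) := fun j n => by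
    show (f ^ n) (f.symm^[t j] (z j)) = _
    rw [← zp_neg]
    show (f ^ n * f ^ (-(t j : ℤ))) (z j) = _
    rw [← zpow_add]
    rfl
  have hxz : ∀ (j : Fin (B + 1)) (n : ℤ), (f ^ n) x = (f ^ (n - t j)) (f^[t j] x) := fun j n => by
    rw [← zp_nat]
    show _ = (f ^ (n - (t j : ℤ)) * f ^ ((t j : ℕ) : ℤ)) x
    rw [← zpow_add]
    congr 2
    ring
  have hinj : Function.Injective y := by
    have key : ∀ j j' : Fin (B + 1), j < j' → y j ≠ y j' := by
      intro j j' hjj he
      have h1 := hz3 j'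
      have h2 := hz4 j ((t j' : ℤ) + m₀ - t j) (by
        have := htg j j' hjj
        omega)
      rw [← hxz j, ← hyz j, he] at h2
      have e1 := hxz j' ((t j' : ℤ) + m₀)
      have e2 := hyz j' ((t j' : ℤ) + m₀)
      have e3 : (t j' : ℤ) + m₀ - t j' = m₀ := by ring
      rw [e3] at e1 e2
      rw [e1, e2] at h2
      linarith
    intro j j' he
    rcases lt_trichotomy j j' with h1 | h1 | h1
    · exact absurd he (key j j' h1)
    · exact h1
    · exact absurd he.symm (key j' j h1)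
  have hmem : ∀ j, y j ∈ {a | Hm f p a ∧ h a = h x} := by
    intro j
    refine ⟨hm_trans hx2 (hm_shift (t j) (hz2 j)), ?_⟩
    show h (f.symm^[t j] (z j)) = h x
    rw [← zp_neg, h_zp hh, hz1, ← zp_nat, h_zp hh]
    show (g ^ (-(t j : ℤ)) * g ^ ((t j : ℕ) : ℤ)) (h x) = h x
    rw [← zpow_add, neg_add_cancel, zpow_zero]
    rfl
  have h1 : (range y).encard ≤ B := (Set.encard_le_encard (range_subset_iff.2 hmem)).trans (hB _)
  have h2 : (range y).encard = (B + 1 : ℕ) := by
    rw [← Set.image_univ, hinj.encard_image, Set.encard_univ]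
    simp
  rw [h2] at h1
  have h3 : B + 1 ≤ B := by exact_mod_cast h1
  omega

end Pool.Agent.J4H56.HT
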