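import Pool.Agent.J4H56.HT.Main

set_option autoImplicit false
set_option linter.unusedSectionVars false

open Filter Topology Set Metric
open scoped Manifold ContDiff

namespace Pool.Agent.J4H56.HT

open Pool.Agent.H721R2 Pool.Agent.H789R2.AN Pool.Agent.TH289 Pool.Agent.TH289.K
open Pool.Agent.W740.TC (torusMap)
open Pool.Agent.H779R2.To (IsToral HypMat)

universe u

variable {E : Type*} [NormedAddCommGroup E] [NormedSpace ℝ E] [FiniteDimensional ℝ E]
variable {M : Type u} [MetricSpace M] [CompactSpace M] [ConnectedSpace M]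
    [ChartedSpace E M] [IsManifold 𝓘(ℝ, E) ∞ M]

/-- existence of the semiconjugacy -/
theorem man_franks (f : Diffeomorph 𝓘(ℝ, E) 𝓘(ℝ, E) M M 1)
    {k : ℕ} {A : Matrix (Fin k) (Fin k) ℤ} (hdet : IsUnit A.det) (hA : HypMat A)
    (φ : C(M, Fin k → AddCircle (1 : ℝ)))
    (hφ : (φ.comp ⟨f, f.continuous⟩).Homotopic ((torusMap A).comp φ)) :
    ∃ h : C(M, Fin k → AddCircle (1 : ℝ)), h.Homotopic φ ∧ ∀ x, h (f x) = torusMap A (h x) := by
  obtain ⟨u, hu, h1⟩ := exists_franks (t_L1 k A hdet hA) f.toHomeomorph φ hφ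
  exact ⟨_, homotopic_add φ hu, h1⟩

/-- all conditions, for one homotopy class -/
theorem man_all (f : Diffeomorph 𝓘(ℝ, E) 𝓘(ℝ, E) M M 1)
    (Es Eu : ∀ x : M, Submodule ℝ (TangentSpace 𝓘(ℝ, E) x)) (hf : IsAnosov f Es Eu)
    {k : ℕ} {A : Matrix (Fin k) (Fin k) ℤ} (hdet : IsUnit A.det) (hA : HypMat A)
    (φ : C(M, Fin k → AddCircle (1 : ℝ)))
    (hφ : (φ.comp ⟨f, f.continuous⟩).Homotopic ((torusMap A).comp φ))
    (h : C(M, Fin k → AddCircle (1 : ℝ))) (hh1 : h.Homotopic φ)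
    (hh2 : ∀ x, h (f x) = torusMap A (h x)) :
    List.TFAE [∀ x y, HomTriv f.toHomeomorph φ x y → x = y,
      ∃ B : ℕ, ∀ x, {y | HomTriv f.toHomeomorph φ x y}.encard ≤ B,
      ∀ y, (h ⁻¹' {y}).Countable,
      ∃ N : ℕ, ∀ y, (h ⁻¹' {y}).encard ≤ N,
      TopTransitive f ∧
        Dynamics.coverEntropy f univ ≤ Dynamics.coverEntropy (torusMap A) (range h)] ∧
    ((∃ B : ℕ, ∀ x, {y | HomTriv f.toHomeomorph φ x y}.encard ≤ B) →
      TopTransitive f ∧ IsToral f ∧ ∃ q : E → M, IsCoveringMap q ∧ Function.Surjective q) := by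
  have hD := t_L1 k A hdet hA
  have key := man_tfae f Es Eu hf hD φ h hh1 hh2
  refine ⟨?_, fun hB => ?_⟩
  · tfae_have 1 ↔ 2 := key.out 0 1
    tfae_have 2 ↔ 3 := key.out 1 2
    tfae_have 3 ↔ 5 := key.out 2 3
    have k24 := key.out 1 4
    tfae_have 2 → 4 := fun h2 => (k24.1 h2).2.2
    tfae_have 4 → 3 := fun ⟨N, hN⟩ y => (Set.finite_of_encard_le_coe (hN y)).countable
    tfae_finish
  · obtain ⟨hT, hG, hN⟩ := (key.out 1 4).1 hB
    exact ⟨hT, man_toral f Es Eu hf hD φ h hh1 hφ hh2 hT hG hN⟩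

/-- toral maps -/
theorem man_of_toral (f : Diffeomorph 𝓘(ℝ, E) 𝓘(ℝ, E) M M 1) (h : IsToral f) :
    ∃ (k : ℕ) (A : Matrix (Fin k) (Fin k) ℤ) (φ : C(M, Fin k → AddCircle (1 : ℝ))),
      IsUnit A.det ∧ HypMat A ∧
      (φ.comp ⟨f, f.continuous⟩).Homotopic ((torusMap A).comp φ) ∧
      ∀ x y, HomTriv f.toHomeomorph φ x y → x = y := by
  obtain ⟨m, A, g, hdet, hA, hg⟩ := h
  have e1 : (ContinuousMap.mk g g.continuous).comp ⟨f, f.continuous⟩ =
      (torusMap A).comp (ContinuousMap.mk g g.continuous) := by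
    ext x i
    exact hg x i
  refine ⟨m, A, ⟨g, g.continuous⟩, hdet, hA, by rw [e1], fun x y hxy => ?_⟩
  have h1 := eq_of_homtriv (t_L1 m A hdet hA) (f := f.toHomeomorph) (φ := g) g.continuous
    (u := fun _ => 0) continuous_const (fun x => by
      rw [pr_zero, add_zero, add_zero]
      funext i
      exact hg x i) hxy
  rw [pr_zero, add_zero, add_zero] at h1
  exact (g.injective h1).symm

/-- bounded multiplicity from triviality -/
theorem bdd_of_triv {f : M ≃ₜ M} {k : ℕ} {φ : M → Fin k → AddCircle (1 : ℝ)}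
    (h : ∀ x y, HomTriv f φ x y → x = y) : ∃ B : ℕ, ∀ x, {y | HomTriv f φ x y}.encard ≤ B := by
  refine ⟨1, fun x => ?_⟩
  have h2 : {y | HomTriv f φ x y} ⊆ {x} := fun y hy => (h x y hy).symm
  refine (Set.encard_le_encard h2).trans ?_
  rw [encard_singleton]
  rfl

end Pool.Agent.J4H56.HT
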