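import Pool.Agent.Y331.EP.Trans

/-!
# Identified homoclinic pairs propagate to the points with dense orbits
-/

set_option autoImplicit false
set_option linter.unusedSectionVars false

open Filter Topology Set

namespace Pool.Agent.J4H56.HT

open Pool.Agent.Y331.EP

variable {X Y : Type*} [MetricSpace X] [MetricSpace Y]

theorem hz {f : X ≃ₜ X} {g : Y ≃ₜ Y} {h : X → Y} (hh : ∀ x, h (f x) = g (h x)) (x : X) :
    Orb g fun n : ℤ => h ((f ^ n) x) := fun n => by
  show h ((f ^ (n + 1)) x) = g (h ((f ^ n) x))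
  rw [zp_succ, hh]

/-- finitely many iterates are uniformly close -/
theorem near_iter {f : X ≃ₜ X} (x0 : X) (L : ℕ) {η : ℝ} (hη : 0 < η) :
    ∃ δ > 0, ∀ x, dist x x0 < δ → ∀ n : ℤ, n.natAbs ≤ L → dist ((f ^ n) x) ((f ^ n) x0) ≤ η := by
  have h1 : ∀ n ∈ (Finset.Icc (-(L : ℤ)) L : Finset ℤ),
      ∀ᶠ x in 𝓝 x0, dist ((f ^ n) x) ((f ^ n) x0) < η := fun n _ =>
    Metric.tendsto_nhds.mp ((f ^ n).continuous.tendsto x0) η hη
  have h2 := (Filter.eventually_all_finset (Finset.Icc (-(L : ℤ)) (L : ℤ))).2 h1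
  obtain ⟨δ, hδ, h3⟩ := Metric.eventually_nhds_iff.mp h2
  refine ⟨δ, hδ, fun x hx n hn => (h3 hx n ?_).le⟩
  rw [Finset.mem_Icc]
  omega

/-- partners of nearby points -/
theorem exists_partner [CompactSpace X] {f : X ≃ₜ X} {g : Y ≃ₜ Y} {h : X → Y} {ef eg : ℝ}
    (hE : Ex f ef) (hS : Shad f) (hG : Ex g eg) (hc : Continuous h)
    (hh : ∀ x, h (f x) = g (h x)) {x0 y0 : X} (hne : x0 ≠ y0) (hxy : h x0 = h y0)
    (hm : Hm f x0 y0) : ∃ δ > 0, ∃ L : ℕ, ∃ m₀ : ℤ, m₀.natAbs < L ∧ ∀ x, dist x x0 < δ →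
      ∃ y, h y = h x ∧ Hm f x y ∧ ef / 2 < dist ((f ^ m₀) x) ((f ^ m₀) y) ∧
        ∀ n : ℤ, L ≤ n.natAbs → dist ((f ^ n) x) ((f ^ n) y) ≤ ef / 2 := by
  have hef := hE.pos
  have heg := hG.pos
  obtain ⟨m₀, hm₀⟩ : ∃ n : ℤ, ef < dist ((f ^ n) x0) ((f ^ n) y0) := by
    by_contra hcon
    push Not at hcon
    apply hne
    have := hE.exp _ _ (orb_zp f x0) (orb_zp f y0) hcon
    simpa using this
  have hu := CompactSpace.uniformContinuous_of_continuous hc
  obtain ⟨ε₀, hε₀, h1⟩ := Metric.uniformContinuous_iff.mp hu (eg / 2) (by positivity)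
  set ε := min (ε₀ / 2) (ef / 8) with hεdef
  have hε : 0 < ε := lt_min (by positivity) (by positivity)
  have hεf : ε ≤ ef / 8 := min_le_right _ _
  have hεh : ∀ a b : X, dist a b ≤ ε → dist (h a) (h b) ≤ eg / 2 := fun a b hab => by
    refine (h1 (lt_of_le_of_lt hab ?_)).le
    have := min_le_left (ε₀ / 2) (ef / 8)
    rw [hεdef]
    linarith
  obtain ⟨δ₁, hδ₁, hsh⟩ := hS ε hε
  set η := min (δ₁ / 2) ε with hηdef
  have hη : 0 < η := lt_min (by positivity) hε
  have hηδ : η ≤ δ₁ / 2 := min_le_left _ _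
  have hηε : η ≤ ε := min_le_right _ _
  have h2 := (hm.1.eventually (gt_mem_nhds hη)).and
    ((hm.2.eventually (gt_mem_nhds hη)).and (eventually_ge_atTop (m₀.natAbs + 1)))
  obtain ⟨T0, hT0⟩ := eventually_atTop.1 h2
  have hclose : ∀ n : ℤ, T0 ≤ n.natAbs → dist ((f ^ n) x0) ((f ^ n) y0) ≤ η := by
    intro n hn
    obtain ⟨h3, h4, -⟩ := hT0 n.natAbs hn
    rcases Int.natAbs_eq n with h5 | h5
    · rw [h5, zp_nat, zp_nat]
      exact h3.le
    · rw [h5, zp_neg, zp_neg]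
      exact h4.le
  have hT : m₀.natAbs + 1 ≤ T0 := (hT0 T0 le_rfl).2.2
  obtain ⟨δ, hδ, hnear⟩ := near_iter (f := f) x0 (T0 + 1) hη
  refine ⟨δ, hδ, T0 + 1, m₀, by omega, fun x hx => ?_⟩
  set P : ℤ → X := fun n => if n.natAbs < T0 + 1 then (f ^ n) y0 else (f ^ n) x with hP
  have hPin : ∀ n : ℤ, n.natAbs < T0 + 1 → P n = (f ^ n) y0 := fun n hn => if_pos hn
  have hPout : ∀ n : ℤ, ¬ n.natAbs < T0 + 1 → P n = (f ^ n) x := fun n hn => if_neg hn
  have hcl2 : ∀ n : ℤ, T0 ≤ n.natAbs → n.natAbs ≤ T0 + 1 →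
      dist ((f ^ n) x) ((f ^ n) y0) ≤ δ₁ := by
    intro n hn hn'
    have h3 := hnear x hx n hn'
    have h4 := hclose n hn
    have h5 := dist_triangle ((f ^ n) x) ((f ^ n) x0) ((f ^ n) y0)
    linarith
  have hjump : ∀ n : ℤ, dist (f (P n)) (P (n + 1)) ≤ δ₁ := by
    intro n
    by_cases h3 : n.natAbs < T0 + 1 <;> by_cases h4 : (n + 1).natAbs < T0 + 1
    · rw [hPin n h3, hPin _ h4, zp_succ, dist_self]
      exact hδ₁.le
    · rw [hPin n h3, hPout _ h4, ← zp_succ, dist_comm]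
      exact hcl2 (n + 1) (by omega) (by omega)
    · rw [hPout n h3, hPin _ h4, ← zp_succ]
      exact hcl2 (n + 1) (by omega) (by omega)
    · rw [hPout n h3, hPout _ h4, zp_succ, dist_self]
      exact hδ₁.le
  obtain ⟨y, hy, hyP⟩ := hsh P hjump
  have hyn : ∀ n, y n = (f ^ n) (y 0) := fun n => orb_eq f hy n
  have hout : ∀ n : ℤ, T0 + 1 ≤ n.natAbs → dist ((f ^ n) x) ((f ^ n) (y 0)) ≤ ε := by
    intro n hn
    have h3 := hyP n
    rw [hPout n (by omega), hyn] at h3
    exact h3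
  have hin : ∀ n : ℤ, n.natAbs < T0 + 1 → dist ((f ^ n) y0) ((f ^ n) (y 0)) ≤ ε := by
    intro n hn
    have h3 := hyP n
    rw [hPin n hn, hyn] at h3
    exact h3
  refine ⟨y 0, ?_, ⟨?_, ?_⟩, ?_, fun n hn => (hout n hn).trans (by linarith)⟩
  · -- images
    have hEx := hG.exp (fun n => h ((f ^ n) (y 0))) (fun n => h ((f ^ n) x)) (hz hh _) (hz hh _)
      (fun n => by
        show dist (h ((f ^ n) (y 0))) (h ((f ^ n) x)) ≤ eg
        by_cases h3 : n.natAbs < T0 + 1
        · have h4 := hεh _ _ (hin n h3)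
          have h5 := hεh _ _ ((hnear x hx n (by omega)).trans hηε)
          have h6 : h ((f ^ n) y0) = h ((f ^ n) x0) := by
            have e1 := orb_eq g (hz hh y0) n
            have e2 := orb_eq g (hz hh x0) n
            have e3 : h ((f ^ n) y0) = (g ^ n) (h ((f ^ (0 : ℤ)) y0)) := e1
            have e4 : h ((f ^ n) x0) = (g ^ n) (h ((f ^ (0 : ℤ)) x0)) := e2
            rw [e3, e4, zpow_zero]
            show (g ^ n) (h y0) = (g ^ n) (h x0)
            rw [hxy]
          rw [dist_comm] at h4 h5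
          rw [h6] at h4
          have h7 := dist_triangle (h ((f ^ n) (y 0))) (h ((f ^ n) x0)) (h ((f ^ n) x))
          linarith
        · have h4 := hεh _ _ (hout n (by omega))
          rw [dist_comm] at h4
          linarith)
    simpa using hEx
  · refine tend_of_close hE (L := T0 + 1) fun n hn => ?_
    rw [← zp_nat, ← zp_nat]
    exact (hout n (by omega)).trans (by linarith)
  · refine tend_of_close hE.symm (L := T0 + 1) fun n hn => ?_
    rw [← zp_neg, ← zp_neg]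
    exact (hout (-(n : ℤ)) (by omega)).trans (by linarith)
  · have h3 := hin m₀ (by omega)
    have h4 := hnear x hx m₀ (by omega)
    have h5 := dist_triangle4 ((f ^ m₀) x0) ((f ^ m₀) x) ((f ^ m₀) (y 0)) ((f ^ m₀) y0)
    rw [dist_comm ((f ^ m₀) x0) ((f ^ m₀) x), dist_comm ((f ^ m₀) (y 0)) ((f ^ m₀) y0)] at h5
    linarith

/-- **One point is enough.** -/
theorem inf_partners [CompactSpace X] {f : X ≃ₜ X} {g : Y ≃ₜ Y} {h : X → Y} {ef eg : ℝ}
    (hE : Ex f ef) (hS : Shad f) (hG : Ex g eg) (hc : Continuous h)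
    (hh : ∀ x, h (f x) = g (h x)) {x0 y0 : X} (hne : x0 ≠ y0) (hxy : h x0 = h y0)
    (hm : Hm f x0 y0) {x : X} (hx : MapClusterPt x0 atTop fun n : ℕ => f^[n] x) :
    {y | h y = h x ∧ Hm f x y}.Infinite := by
  obtain ⟨δ, hδ, L, m₀, hL, hp⟩ := exists_partner hE hS hG hc hh hne hxy hm
  have hfreq : ∃ᶠ n : ℕ in atTop, dist (f^[n] x) x0 < δ :=
    hx.frequently (Metric.ball_mem_nhds x0 hδ)
  -- partners with late deviation
  have key : ∀ N : ℕ, ∃ y ∈ {y | h y = h x ∧ Hm f x y}, (∃ n : ℕ, N ≤ n ∧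
      ef / 2 < dist (f^[n] x) (f^[n] y)) := by
    intro N
    obtain ⟨n, hn, hnd⟩ := (frequently_atTop.mp hfreq) (N + L)
    obtain ⟨y, hy1, hy2, hy3, -⟩ := hp (f^[n] x) hnd
    have hb : ∀ j : ℕ, ∀ z, f^[n + j] (f.symm^[n] z) = f^[j] z := fun j z => by
      rw [Nat.add_comm, Function.iterate_add_apply]
      congr 1
      exact (Function.LeftInverse.iterate f.apply_symm_apply n) z
    refine ⟨f.symm^[n] y, ⟨?_, ?_, ?_⟩, ((n : ℤ) + m₀).toNat, by omega, ?_⟩
    · apply g.injective.iterate n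
      rw [← semi_iter hh, ← semi_iter hh]
      have := hb 0 y
      rw [Nat.add_zero] at this
      rw [this]
      exact hy1
    · have h1 : Tendsto (fun j : ℕ => dist (f^[j + n] x) (f^[j + n] (f.symm^[n] y))) atTop (𝓝 0) := by
        refine hy2.1.congr fun j => ?_
        rw [Nat.add_comm j n, hb, Nat.add_comm n j, Function.iterate_add_apply]
      exact (tendsto_add_atTop_iff_nat n).1 h1
    · have h1 : Tendsto (fun j : ℕ => dist (f.symm^[j] x) (f.symm^[j] (f.symm^[n] y)))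
          atTop (𝓝 0) := by
        have h2 := (tendsto_add_atTop_iff_nat n).2 hy2.2
        refine h2.congr fun j => ?_
        rw [Function.iterate_add_apply, Function.iterate_add_apply]
        rw [(Function.LeftInverse.iterate f.symm_apply_apply n) x]
      exact h1
    · have e1 : ∀ z, f^[((n : ℤ) + m₀).toNat] z = (f ^ m₀) (f^[n] z) := fun z => by
        rw [← zp_nat, ← zp_nat, Int.toNat_of_nonneg (by omega), add_comm, zpow_add]
        rfl
      rw [e1, e1]
      have := hb 0 y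
      rw [Nat.add_zero] at this
      rw [this]
      exact hy3
  intro hfin
  -- a common time after which all partners are close
  have hall : ∀ y ∈ {y | h y = h x ∧ Hm f x y}, ∃ N : ℕ, ∀ n ≥ N,
      dist (f^[n] x) (f^[n] y) < ef / 2 := fun y hy =>
    eventually_atTop.mp (hy.2.1.eventually (gt_mem_nhds (half_pos hE.pos)))
  choose! N hN using hall
  obtain ⟨y, hy, n, hn, hd⟩ := key (hfin.toFinset.sup N)
  have h3 : N y ≤ hfin.toFinset.sup N := Finset.le_sup (hfin.mem_toFinset.2 hy)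
  have h4 := hN y hy n (h3.trans hn)
  linarith

end Pool.Agent.J4H56.HT
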