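import Pool.Agent.J4H56.HT.Fin
import Pool.Agent.J4H56.HT.One

set_option autoImplicit false
set_option linter.unusedSectionVars false

open Filter Topology Set Metric
open scoped Manifold ContDiff

namespace Pool.Agent.J4H56.HT

open Pool.Agent.H721R2 Pool.Agent.H789R2.AN Pool.Agent.TH289 Pool.Agent.TH289.K
open Pool.Agent.Y331.EP Pool.Agent.TH289.L
open Pool.Agent.W740.TC (torusMap)
open Pool.Agent.H779R2.To (IsToral HypMat)

/-- transitive homeomorphisms have points whose forward orbit accumulates everywhere -/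
theorem exists_rec {Y : Type*} [MetricSpace Y] [CompactSpace Y] [Nonempty Y]
    {g : Y ≃ₜ Y} (hT : TopTransitive g) :
    ∃ y₀, ∀ z, MapClusterPt z atTop fun n : ℕ => g^[n] y₀ := by
  have hb := TopologicalSpace.isBasis_countableBasis Y
  have ho : ∀ U ∈ TopologicalSpace.countableBasis Y, ∀ N : ℕ,
      IsOpen (⋃ n : ℕ, g^[N + n] ⁻¹' U) := fun U hU N =>
    isOpen_iUnion fun n => (hb.isOpen hU).preimage (g.continuous.iterate (N + n))
  have hd : Dense (⋂ U ∈ TopologicalSpace.countableBasis Y, ⋂ N : ℕ, ⋃ n : ℕ,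
      g^[N + n] ⁻¹' U) := by
    refine dense_biInter_of_Gδ (fun U hU => IsGδ.iInter_of_isOpen fun N => ho U hU N)
      (TopologicalSpace.countable_countableBasis Y) fun U hU =>
      dense_iInter_of_isOpen (fun N => ho U hU N) fun N => ?_
    rw [dense_iff_inter_open]
    intro V hV hVn
    have hUn : U.Nonempty := TopologicalSpace.nonempty_of_mem_countableBasis hU
    have hUo : IsOpen (g^[N] ⁻¹' U) := (hb.isOpen hU).preimage (g.continuous.iterate N)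
    have hUn' : (g^[N] ⁻¹' U).Nonempty := by
      obtain ⟨z, hz⟩ := hUn
      obtain ⟨w, hw⟩ := g.surjective.iterate N z
      exact ⟨w, by show g^[N] w ∈ U; rw [hw]; exact hz⟩
    obtain ⟨n, w, ⟨v, hv, rfl⟩, hw⟩ := hT V _ hV hVn hUo hUn'
    refine ⟨v, hv, mem_iUnion.2 ⟨n, ?_⟩⟩
    show g^[N + n] v ∈ U
    rw [Function.iterate_add_apply]
    exact hw
  obtain ⟨y₀, hy₀⟩ := hd.nonempty
  refine ⟨y₀, fun z => ?_⟩
  rw [mapClusterPt_iff_frequently]
  intro s hs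
  obtain ⟨U, hU, hzU, hUs⟩ := hb.mem_nhds_iff.1 hs
  rw [frequently_atTop]
  intro N
  obtain ⟨n, hn⟩ := mem_iUnion.1 (mem_iInter.1 (mem_iInter₂.1 hy₀ U hU) N)
  exact ⟨N + n, by omega, hUs hn⟩

universe u

variable {E : Type*} [NormedAddCommGroup E] [NormedSpace ℝ E] [FiniteDimensional ℝ E]
variable {M : Type u} [MetricSpace M] [CompactSpace M] [ConnectedSpace M]
    [ChartedSpace E M] [IsManifold 𝓘(ℝ, E) ∞ M]

/-- one point is enough -/
theorem man_one (f : Diffeomorph 𝓘(ℝ, E) 𝓘(ℝ, E) M M 1)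
    (Es Eu : ∀ x : M, Submodule ℝ (TangentSpace 𝓘(ℝ, E) x)) (hf : IsAnosov f Es Eu)
    {k : ℕ} {A : Matrix (Fin k) (Fin k) ℤ} (hdet : IsUnit A.det) (hA : HypMat A)
    (φ h : C(M, Fin k → AddCircle (1 : ℝ))) (hh1 : h.Homotopic φ)
    (hh2 : ∀ x, h (f x) = torusMap A (h x)) {x : M}
    (hx : ∀ z, MapClusterPt z atTop fun n : ℕ => f^[n] x)
    (hfin : {y | HomTriv f.toHomeomorph φ x y}.Finite) :
    ∀ x y, HomTriv f.toHomeomorph φ x y → x = y := by
  have hD := t_L1 k A hdet hA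
  intro x0 y0 h0
  by_contra hne
  obtain ⟨eg, hG⟩ := ex_of_expansive (t_T4 k A _ hD)
  obtain ⟨ef, hE⟩ := ex_of_expansive (expansive_of_anosov f Es Eu hf)
  obtain ⟨h1, h2, h3⟩ := (man_homtriv_iff f Es Eu hf hD φ h hh1 hh2 x0 y0).1 h0
  have h4 := inf_partners hE (man_shad f Es Eu hf) hG h.continuous hh2 hne h1.symm
    ((hm_iff f.toHomeomorph x0 y0).2 ⟨h2, h3⟩) (hx x0)
  apply h4
  refine hfin.subset fun y hy => ?_
  obtain ⟨h5, h6⟩ := hy
  exact (man_homtriv_iff f Es Eu hf hD φ h hh1 hh2 x y).2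
    ⟨h5, (hm_iff f.toHomeomorph x y).1 h6⟩

/-- all conditions, for one homotopy class -/
theorem man_all' (f : Diffeomorph 𝓘(ℝ, E) 𝓘(ℝ, E) M M 1)
    (Es Eu : ∀ x : M, Submodule ℝ (TangentSpace 𝓘(ℝ, E) x)) (hf : IsAnosov f Es Eu)
    {k : ℕ} {A : Matrix (Fin k) (Fin k) ℤ} (hdet : IsUnit A.det) (hA : HypMat A)
    (φ : C(M, Fin k → AddCircle (1 : ℝ)))
    (hφ : (φ.comp ⟨f, f.continuous⟩).Homotopic ((torusMap A).comp φ))
    (h : C(M, Fin k → AddCircle (1 : ℝ))) (hh1 : h.Homotopic φ)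
    (hh2 : ∀ x, h (f x) = torusMap A (h x)) :
    List.TFAE [∀ x y, HomTriv f.toHomeomorph φ x y → x = y,
      ∃ B : ℕ, ∀ x, {y | HomTriv f.toHomeomorph φ x y}.encard ≤ B,
      ∃ x, (∀ z, MapClusterPt z atTop fun n : ℕ => f^[n] x) ∧
        {y | HomTriv f.toHomeomorph φ x y}.Finite,
      ∀ y, (h ⁻¹' {y}).Countable,
      ∃ N : ℕ, ∀ y, (h ⁻¹' {y}).encard ≤ N,
      TopTransitive f ∧
        Dynamics.coverEntropy f univ ≤ Dynamics.coverEntropy (torusMap A) (range h)] ∧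
    ((∃ B : ℕ, ∀ x, {y | HomTriv f.toHomeomorph φ x y}.encard ≤ B) →
      TopTransitive f ∧ IsToral f ∧ ∃ q : E → M, IsCoveringMap q ∧ Function.Surjective q) := by
  obtain ⟨key, key2⟩ := man_all f Es Eu hf hdet hA φ hφ h hh1 hh2
  refine ⟨?_, key2⟩
  tfae_have 1 ↔ 2 := key.out 0 1
  tfae_have 2 ↔ 4 := key.out 1 2
  tfae_have 4 ↔ 5 := key.out 2 3
  tfae_have 5 ↔ 6 := key.out 3 4
  tfae_have 3 → 1 := fun ⟨x, hx, hfin⟩ => man_one f Es Eu hf hdet hA φ h hh1 hh2 hx hfin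
  have k12 := key.out 0 1
  tfae_have 1 → 3 := by
    intro h1
    obtain ⟨x, hx⟩ := exists_rec (g := f.toHomeomorph) (key2 (k12.1 h1)).1
    refine ⟨x, hx, (Set.finite_singleton x).subset fun y hy => ?_⟩
    exact (h1 x y hy).symm
  tfae_finish

end Pool.Agent.J4H56.HT
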