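import Pool.Agent.J4H56.HT.Fin2
import Pool.Agent.J4H56.HT.Per

/-!
# Homology classes of homoclinic loops at one periodic point
-/

set_option autoImplicit false
set_option linter.unusedSectionVars false

open Filter Topology Set Metric
open scoped Manifold ContDiff

namespace Pool.Agent.J4H56.HT

open Pool.Agent.H721R2 Pool.Agent.H789R2.AN Pool.Agent.TH289 Pool.Agent.TH289.K
open Pool.Agent.Y331.EP Pool.Agent.TH289.L
open Pool.Agent.W740.TC (torusMap)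
open Pool.Agent.H779R2.To (IsToral HypMat)

/-- `q` is a homoclinic point of `p`: there are a stable path `α` and an unstable path `β` from `p` to
`q`, and `φ : M → ℝᵏ/ℤᵏ` maps the loop `α · β⁻¹` to a loop with the displacement `c`, i.e. lifts of
`φ ∘ α` and `φ ∘ β` to `ℝᵏ` have displacements with difference `c`. -/
def LoopClass {M : Type*} [TopologicalSpace M] {k : ℕ} (f : M ≃ₜ M)
    (φ : M → Fin k → AddCircle (1 : ℝ)) (p q : M) (c : Fin k → ℝ) : Prop :=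
  ∃ (α β : C(unitInterval, M)) (θ η : C(unitInterval, Fin k → ℝ)), StablePath f α ∧
    StablePath f.symm β ∧ α 0 = p ∧ β 0 = p ∧ α 1 = q ∧ β 1 = q ∧
    (∀ t i, ((θ t i : ℝ) : AddCircle (1 : ℝ)) = φ (α t) i) ∧
    (∀ t i, ((η t i : ℝ) : AddCircle (1 : ℝ)) = φ (β t) i) ∧ (θ 1 - θ 0) - (η 1 - η 0) = c

section abs

variable {k : ℕ} {A A' : Matrix (Fin k) (Fin k) ℤ}

theorem bdd_sub {v w : Fin k → ℝ} (hv : ∃ (K : ℝ) (n₀ : ℕ), ∀ n ≥ n₀, ‖(mv A)^[n] v‖ ≤ K)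
    (hw : ∃ (K : ℝ) (n₀ : ℕ), ∀ n ≥ n₀, ‖(mv A)^[n] w‖ ≤ K) :
    ∃ (K : ℝ) (n₀ : ℕ), ∀ n ≥ n₀, ‖(mv A)^[n] (v - w)‖ ≤ K := by
  obtain ⟨K, n, h1⟩ := hv
  obtain ⟨K', n', h2⟩ := hw
  refine ⟨K + K', max n n', fun m hm => ?_⟩
  rw [mv_iter_sub]
  exact (norm_sub_le _ _).trans (add_le_add (h1 m (le_trans (le_max_left _ _) hm))
    (h2 m (le_trans (le_max_right _ _) hm)))

variable {X : Type*} [MetricSpace X] [CompactSpace X]

theorem eq_of_loop (hD : HD A A') {f : X ≃ₜ X} {φ : X → T k} (hφ : Continuous φ)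
    {u : X → Fin k → ℝ} (hu : Continuous u)
    (hh : ∀ x, φ (f x) + pr (u (f x)) = torusMap A (φ x + pr (u x))) {p q q' : X}
    {c : Fin k → ℝ} (h1 : LoopClass f φ p q c) (h2 : LoopClass f φ p q' c) :
    φ q + pr (u q) = φ q' + pr (u q') := by
  have hh' : ∀ x, φ (f.symm x) + pr (u (f.symm x)) = torusMap A' (φ x + pr (u x)) :=
    fun x => semi_symm hD (h := fun x => φ x + pr (u x)) hh x
  obtain ⟨α, β, θ, η, hα, hβ, hα0, hβ0, hα1, hβ1, hθ, hη, he⟩ := h1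
  obtain ⟨α', β', θ', η', hα', hβ', hα0', hβ0', hα1', hβ1', hθ', hη', he'⟩ := h2
  have kθ : ∀ t, pr (θ t) = φ (α t) := fun t => funext fun i => hθ t i
  have kη : ∀ t, pr (η t) = φ (β t) := fun t => funext fun i => hη t i
  have kθ' : ∀ t, pr (θ' t) = φ (α' t) := fun t => funext fun i => hθ' t i
  have kη' : ∀ t, pr (η' t) = φ (β' t) := fun t => funext fun i => hη' t i
  have b1 := bdd_sub (disp_bdd hD hφ hu hh hα kθ) (disp_bdd hD hφ hu hh hα' kθ')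
  have b2 := bdd_sub (disp_bdd hD.symm hφ hu hh' hβ kη) (disp_bdd hD.symm hφ hu hh' hβ' kη')
  rw [hα0, hα1, hα0', hα1'] at b1
  rw [hβ0, hβ1, hβ0', hβ1'] at b2
  have e1 : (θ 1 - θ 0 + (u q - u p)) - (θ' 1 - θ' 0 + (u q' - u p)) =
      (η 1 - η 0 + (u q - u p)) - (η' 1 - η' 0 + (u q' - u p)) := by
    have e2 : (θ 1 - θ 0) = c + (η 1 - η 0) := by rw [← he]; abel
    have e3 : (θ' 1 - θ' 0) = c + (η' 1 - η' 0) := by rw [← he']; abel
    rw [e2, e3]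
    abel
  rw [← e1] at b2
  have h3 := t_H3 k A A' hD _ b1 (Or.inr b2)
  have h4 : pr ((θ 1 - θ 0 + (u q - u p)) - (θ' 1 - θ' 0 + (u q' - u p))) = 0 := by
    rw [h3, pr_zero]
  rw [pr_sub, pr_add, pr_add, pr_sub, pr_sub, pr_sub, pr_sub, kθ, kθ, kθ', kθ', hα0, hα1, hα0',
    hα1'] at h4
  have h5 : (φ q + pr (u q)) - (φ q' + pr (u q')) = 0 := by
    rw [← h4]
    abel
  exact sub_eq_zero.mp h5

theorem loop_same (hD : HD A A') {f : X ≃ₜ X} {φ : X → T k} (hφ : Continuous φ)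
    {u : X → Fin k → ℝ} (hu : Continuous u)
    (hh : ∀ x, φ (f x) + pr (u (f x)) = torusMap A (φ x + pr (u x))) {p q q' : X}
    (hqq : φ q + pr (u q) = φ q' + pr (u q')) {α β α' β' : C(unitInterval, X)}
    (hα : StablePath f α) (hβ : StablePath f.symm β) (hα' : StablePath f α')
    (hβ' : StablePath f.symm β') (hα0 : α 0 = p) (hα1 : α 1 = q) (hβ0 : β 0 = p)
    (hβ1 : β 1 = q) (hα0' : α' 0 = p) (hα1' : α' 1 = q') (hβ0' : β' 0 = p) (hβ1' : β' 1 = q') :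
    ∃ c, LoopClass f φ p q c ∧ LoopClass f φ p q' c := by
  have hh' : ∀ x, φ (f.symm x) + pr (u (f.symm x)) = torusMap A' (φ x + pr (u x)) :=
    fun x => semi_symm hD (h := fun x => φ x + pr (u x)) hh x
  have lift : ∀ γ : C(unitInterval, X), ∃ ζ : C(unitInterval, Fin k → ℝ),
      ∀ t, pr (ζ t) = φ (γ t) := fun γ => by
    obtain ⟨ζ, -, hζ⟩ := t_H2 k ⟨fun t => φ (γ t), hφ.comp γ.continuous⟩ (sm (φ (γ 0)))
      (pr_sm _)
    exact ⟨ζ, hζ⟩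
  obtain ⟨θ, hθ⟩ := lift α
  obtain ⟨η, hη⟩ := lift β
  obtain ⟨θ', hθ'⟩ := lift α'
  obtain ⟨η', hη'⟩ := lift β'
  have key : ∀ {B B' : Matrix (Fin k) (Fin k) ℤ} (hB : HD B B') (γ γ' : C(unitInterval, X))
      (ζ ζ' : C(unitInterval, Fin k → ℝ)), γ 0 = p → γ 1 = q → γ' 0 = p → γ' 1 = q' →
      (∀ t, pr (ζ t) = φ (γ t)) → (∀ t, pr (ζ' t) = φ (γ' t)) →
      (∃ (K : ℝ) (n₀ : ℕ), ∀ n ≥ n₀,
        ‖(mv B)^[n] ((ζ 1 - ζ 0) + (u (γ 1) - u (γ 0)))‖ ≤ K) →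
      (∃ (K : ℝ) (n₀ : ℕ), ∀ n ≥ n₀,
        ‖(mv B)^[n] ((ζ' 1 - ζ' 0) + (u (γ' 1) - u (γ' 0)))‖ ≤ K) →
      ζ 1 - ζ 0 = ζ' 1 - ζ' 0 + (u q' - u q) := by
    intro B B' hB γ γ' ζ ζ' h0 h1 h0' h1' hζ hζ' hK hK'
    have b := bdd_sub hK hK'
    have h2 := t_H3 k B B' hB _ b (Or.inl (by
      rw [pr_sub, pr_add, pr_add, pr_sub, pr_sub, pr_sub, pr_sub, hζ, hζ, hζ', hζ', h0, h1, h0',
        h1']
      have e : (φ q - φ p + (pr (u q) - pr (u p))) - (φ q' - φ p + (pr (u q') - pr (u p))) =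
          (φ q + pr (u q)) - (φ q' + pr (u q')) := by abel
      rw [e, hqq, sub_self]))
    rw [h0, h1, h0', h1'] at h2
    have h3 := sub_eq_zero.mp h2
    have e : ζ 1 - ζ 0 = (ζ 1 - ζ 0 + (u q - u p)) - (u q - u p) := by abel
    rw [e, h3]
    abel
  have k1 := key hD α α' θ θ' hα0 hα1 hα0' hα1' hθ hθ' (disp_bdd hD hφ hu hh hα hθ)
    (disp_bdd hD hφ hu hh hα' hθ')
  have k2 := key hD.symm β β' η η' hβ0 hβ1 hβ0' hβ1' hη hη'
    (disp_bdd hD.symm hφ hu hh' hβ hη) (disp_bdd hD.symm hφ hu hh' hβ' hη')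
  refine ⟨(θ 1 - θ 0) - (η 1 - η 0), ⟨α, β, θ, η, hα, hβ, hα0, hβ0, hα1, hβ1,
    fun t i => congrFun (hθ t) i, fun t i => congrFun (hη t) i, rfl⟩,
    ⟨α', β', θ', η', hα', hβ', hα0', hβ0', hα1', hβ1',
    fun t i => congrFun (hθ' t) i, fun t i => congrFun (hη' t) i, ?_⟩⟩
  rw [k1, k2]
  abel

end abs

universe u

variable {E : Type*} [NormedAddCommGroup E] [NormedSpace ℝ E] [FiniteDimensional ℝ E]
variable {M : Type u} [MetricSpace M] [CompactSpace M] [ConnectedSpace M]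
    [ChartedSpace E M] [IsManifold 𝓘(ℝ, E) ∞ M]

theorem hm_of_loop {f : M ≃ₜ M} {k : ℕ} {φ : M → Fin k → AddCircle (1 : ℝ)} {p q : M}
    {c : Fin k → ℝ} (h : LoopClass f φ p q c) : Hm f p q := by
  obtain ⟨α, β, θ, η, hα, hβ, hα0, hβ0, hα1, hβ1, -⟩ := h
  have h1 := asym_of_path hα
  have h2 := asym_of_path hβ
  rw [hα0, hα1] at h1
  rw [hβ0, hβ1] at h2
  exact (hm_iff f p q).2 ⟨h1, h2⟩

theorem hm_symm {f : M ≃ₜ M} {x y : M} (h : Hm f x y) : Hm f y x := by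
  obtain ⟨h1, h2⟩ := h
  refine ⟨?_, ?_⟩
  · simpa only [dist_comm] using h1
  · simpa only [dist_comm] using h2

/-- one periodic point is enough -/
theorem man_per (f : Diffeomorph 𝓘(ℝ, E) 𝓘(ℝ, E) M M 1)
    (Es Eu : ∀ x : M, Submodule ℝ (TangentSpace 𝓘(ℝ, E) x)) (hf : IsAnosov f Es Eu)
    {k : ℕ} {A : Matrix (Fin k) (Fin k) ℤ} (hdet : IsUnit A.det) (hA : HypMat A)
    (φ h : C(M, Fin k → AddCircle (1 : ℝ))) (hh1 : h.Homotopic φ)
    (hh2 : ∀ x, h (f x) = torusMap A (h x)) (hT : TopTransitive f) {p : M}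
    (hp : p ∈ Function.periodicPts f)
    (hc : ∀ q q' c, LoopClass f.toHomeomorph φ p q c → LoopClass f.toHomeomorph φ p q' c →
      q = q') :
    ∀ x y, HomTriv f.toHomeomorph φ x y → x = y := by
  have hD := t_L1 k A hdet hA
  intro x0 y0 h0
  obtain ⟨eg, hG⟩ := ex_of_expansive (t_T4 k A _ hD)
  obtain ⟨ef, hE⟩ := ex_of_expansive (expansive_of_anosov f Es Eu hf)
  obtain ⟨h1, h2, h3⟩ := (man_homtriv_iff f Es Eu hf hD φ h hh1 hh2 x0 y0).1 h0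
  obtain ⟨r, hr, hrp⟩ := hp
  obtain ⟨u, hu, hu2⟩ := exists_u hh1
  have hh' : ∀ x, φ (f.toHomeomorph x) + pr (u (f.toHomeomorph x)) =
      torusMap A (φ x + pr (u x)) := by
    intro x
    rw [← hu2, ← hu2]
    exact hh2 x
  refine inj_of_per hE (man_shad f Es Eu hf) hG h.continuous hh2
    (show TT f.toHomeomorph from hT) hr hrp ?_ h1.symm
    ((hm_iff f.toHomeomorph x0 y0).2 ⟨h2, h3⟩)
  intro x y hx hy hxy
  obtain ⟨hx1, hx2⟩ := (hm_iff f.toHomeomorph p x).1 hx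
  obtain ⟨hy1, hy2⟩ := (hm_iff f.toHomeomorph p y).1 hy
  have hfs := Pool.Agent.W740.TU.anosov_symm f Es Eu hf
  obtain ⟨α, hα, hα0, hα1⟩ := man_stable_path f Es Eu hf hx1
  obtain ⟨β, hβ, hβ0, hβ1⟩ := man_stable_path f.symm Eu Es hfs hx2
  obtain ⟨α', hα', hα0', hα1'⟩ := man_stable_path f Es Eu hf hy1
  obtain ⟨β', hβ', hβ0', hβ1'⟩ := man_stable_path f.symm Eu Es hfs hy2
  obtain ⟨c, hc1, hc2⟩ := loop_same hD φ.continuous hu hh' (q := x) (q' := y) (by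
    rw [← hu2, ← hu2]
    exact hxy) hα hβ hα' hβ' hα0 hα1 hβ0 hβ1 hα0' hα1' hβ0' hβ1'
  exact hc x y c hc1 hc2

theorem man_per_conv (f : Diffeomorph 𝓘(ℝ, E) 𝓘(ℝ, E) M M 1)
    (Es Eu : ∀ x : M, Submodule ℝ (TangentSpace 𝓘(ℝ, E) x)) (hf : IsAnosov f Es Eu)
    {k : ℕ} {A : Matrix (Fin k) (Fin k) ℤ} (hdet : IsUnit A.det) (hA : HypMat A)
    (φ h : C(M, Fin k → AddCircle (1 : ℝ))) (hh1 : h.Homotopic φ)
    (hh2 : ∀ x, h (f x) = torusMap A (h x))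
    (hi : ∀ x y, HomTriv f.toHomeomorph φ x y → x = y) (p q q' : M) (c : Fin k → ℝ)
    (h1 : LoopClass f.toHomeomorph φ p q c) (h2 : LoopClass f.toHomeomorph φ p q' c) :
    q = q' := by
  have hD := t_L1 k A hdet hA
  obtain ⟨u, hu, hu2⟩ := exists_u hh1
  have hh' : ∀ x, φ (f.toHomeomorph x) + pr (u (f.toHomeomorph x)) =
      torusMap A (φ x + pr (u x)) := by
    intro x
    rw [← hu2, ← hu2]
    exact hh2 x
  have h3 := eq_of_loop hD φ.continuous hu hh' h1 h2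
  rw [← hu2, ← hu2] at h3
  have h4 := hm_trans (hm_symm (hm_of_loop h1)) (hm_of_loop h2)
  obtain ⟨h5, h6⟩ := (hm_iff f.toHomeomorph q q').1 h4
  exact hi q q' ((man_homtriv_iff f Es Eu hf hD φ h hh1 hh2 q q').2 ⟨h3.symm, h5, h6⟩)

/-- all conditions, for one homotopy class -/
theorem man_all'' (f : Diffeomorph 𝓘(ℝ, E) 𝓘(ℝ, E) M M 1)
    (Es Eu : ∀ x : M, Submodule ℝ (TangentSpace 𝓘(ℝ, E) x)) (hf : IsAnosov f Es Eu)
    {k : ℕ} {A : Matrix (Fin k) (Fin k) ℤ} (hdet : IsUnit A.det) (hA : HypMat A)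
    (φ : C(M, Fin k → AddCircle (1 : ℝ)))
    (hφ : (φ.comp ⟨f, f.continuous⟩).Homotopic ((torusMap A).comp φ))
    (h : C(M, Fin k → AddCircle (1 : ℝ))) (hh1 : h.Homotopic φ)
    (hh2 : ∀ x, h (f x) = torusMap A (h x)) :
    List.TFAE [∀ x y, LoopClass f.toHomeomorph φ x y 0 → x = y,
      ∃ B : ℕ, ∀ x, {y | LoopClass f.toHomeomorph φ x y 0}.encard ≤ B,
      ∃ x, (∀ z, MapClusterPt z atTop fun n : ℕ => f^[n] x) ∧
        {y | LoopClass f.toHomeomorph φ x y 0}.Finite,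
      TopTransitive f ∧ ∃ p ∈ Function.periodicPts f, ∀ q q' c,
        LoopClass f.toHomeomorph φ p q c → LoopClass f.toHomeomorph φ p q' c → q = q',
      ∀ y, (h ⁻¹' {y}).Countable,
      ∃ N : ℕ, ∀ y, (h ⁻¹' {y}).encard ≤ N,
      TopTransitive f ∧
        Dynamics.coverEntropy f univ ≤ Dynamics.coverEntropy (torusMap A) (range h)] ∧
    ((∀ x y, LoopClass f.toHomeomorph φ x y 0 → x = y) →
      TopTransitive f ∧ IsToral f ∧ ∃ q : E → M, IsCoveringMap q ∧ Function.Surjective q) := by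
  obtain ⟨key, key2⟩ := man_all' f Es Eu hf hdet hA φ hφ h hh1 hh2
  have e0 : ∀ x y, LoopClass f.toHomeomorph φ x y 0 ↔ HomTriv f.toHomeomorph φ x y := by
    intro x y
    constructor
    · rintro ⟨α, β, θ, η, a1, a2, a3, a4, a5, a6, a7, a8, a9⟩
      exact ⟨α, β, θ, η, a1, a2, a3, a4, a5, a6, a7, a8, sub_eq_zero.mp a9⟩
    · rintro ⟨α, β, θ, η, a1, a2, a3, a4, a5, a6, a7, a8, a9⟩
      exact ⟨α, β, θ, η, a1, a2, a3, a4, a5, a6, a7, a8, sub_eq_zero.mpr a9⟩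
  simp only [e0]
  have k12 := key.out 0 1
  refine ⟨?_, fun h1 => key2 (k12.1 h1)⟩
  tfae_have 1 ↔ 2 := key.out 0 1
  tfae_have 2 ↔ 3 := key.out 1 2
  tfae_have 3 ↔ 5 := key.out 2 3
  tfae_have 5 ↔ 6 := key.out 3 4
  tfae_have 6 ↔ 7 := key.out 4 5
  tfae_have 4 → 1 := fun ⟨hT, p, hp, hc⟩ =>
    man_per f Es Eu hf hdet hA φ h hh1 hh2 hT hp hc
  tfae_have 1 → 4 := by
    intro h1
    have hT := (key2 (k12.1 h1)).1
    obtain ⟨p, hp⟩ := man_pp f Es Eu hf hT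
    exact ⟨hT, p, hp, fun q q' c => man_per_conv f Es Eu hf hdet hA φ h hh1 hh2 h1 p q q' c⟩
  tfae_finish

end Pool.Agent.J4H56.HT
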