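import Pool.Agent.J4H56.HT.Bp
import Pool.Agent.J4H56.HT.Loop

/-!
# Semiconjugacies to Anosov diffeomorphisms with global product structure: one periodic point
-/

set_option autoImplicit false
set_option linter.unusedSectionVars false

open Filter Topology Set Metric
open scoped Manifold ContDiff

namespace Pool.Agent.J4H56.HT

open Pool.Agent.H721R2 Pool.Agent.H789R2.AN Pool.Agent.TH289 Pool.Agent.TH289.K
open Pool.Agent.Y331.EP Pool.Agent.TH289.L

universe u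

variable {E : Type*} [NormedAddCommGroup E] [NormedSpace ℝ E] [FiniteDimensional ℝ E]
variable {M : Type u} [MetricSpace M] [CompactSpace M] [ConnectedSpace M]
    [ChartedSpace E M] [IsManifold 𝓘(ℝ, E) ∞ M]

/-- general targets: from one periodic point to all homoclinic pairs -/
theorem gen_per {Y : Type*} [MetricSpace Y] [CompactSpace Y]
    (f : Diffeomorph 𝓘(ℝ, E) 𝓘(ℝ, E) M M 1)
    (Es Eu : ∀ x : M, Submodule ℝ (TangentSpace 𝓘(ℝ, E) x)) (hf : IsAnosov f Es Eu)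
    (g : Y ≃ₜ Y) (hg : Expansive g) (h : M → Y) (hc : Continuous h)
    (hh : ∀ x, h (f x) = g (h x)) (hT : TopTransitive f) {p : M}
    (hp : p ∈ Function.periodicPts f) (B : ℕ)
    (hB : ∀ y, {q | Asym f p q ∧ Asym f.symm p q ∧ h q = y}.encard ≤ B) :
    ∀ x y, h x = h y → Asym f x y → Asym f.symm x y → x = y := by
  obtain ⟨eg, hG⟩ := ex_of_expansive hg
  obtain ⟨ef, hE⟩ := ex_of_expansive (expansive_of_anosov f Es Eu hf)
  obtain ⟨r, hr, hrp⟩ := hp
  intro x y hxy h1 h2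
  refine inj_of_bdd_per hE (man_shad f Es Eu hf) hG hc hh (show TT f.toHomeomorph from hT) hr hrp
    B (fun z => ?_) hxy ((hm_iff f.toHomeomorph x y).2 ⟨h1, h2⟩)
  refine (Set.encard_le_encard ?_).trans (hB z)
  rintro q ⟨hq1, hq2⟩
  obtain ⟨h3, h4⟩ := (hm_iff f.toHomeomorph p q).1 hq1
  exact ⟨h3, h4, hq2⟩

theorem gen_one {Y : Type*} [MetricSpace Y] [CompactSpace Y]
    (f : Diffeomorph 𝓘(ℝ, E) 𝓘(ℝ, E) M M 1)
    (Es Eu : ∀ x : M, Submodule ℝ (TangentSpace 𝓘(ℝ, E) x)) (hf : IsAnosov f Es Eu)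
    (g : Y ≃ₜ Y) (hg : Expansive g) (h : M → Y) (hc : Continuous h)
    (hh : ∀ x, h (f x) = g (h x)) {x : M}
    (hx : ∀ z, MapClusterPt z atTop fun n : ℕ => f^[n] x)
    (hfin : {y | h y = h x ∧ Asym f x y ∧ Asym f.symm x y}.Finite) :
    ∀ x y, h x = h y → Asym f x y → Asym f.symm x y → x = y := by
  obtain ⟨eg, hG⟩ := ex_of_expansive hg
  obtain ⟨ef, hE⟩ := ex_of_expansive (expansive_of_anosov f Es Eu hf)
  intro x0 y0 hxy h1 h2
  by_contra hne
  have h4 := inf_partners hE (man_shad f Es Eu hf) hG hc hh hne hxy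
    ((hm_iff f.toHomeomorph x0 y0).2 ⟨h1, h2⟩) (hx x0)
  apply h4
  refine hfin.subset fun y hy => ?_
  obtain ⟨h5, h6⟩ := hy
  exact ⟨h5, (hm_iff f.toHomeomorph x y).1 h6⟩

/-- the full list, for targets with global product structure -/
theorem gen_all {E' : Type*} [NormedAddCommGroup E'] [NormedSpace ℝ E']
    [FiniteDimensional ℝ E'] {M' : Type*} [MetricSpace M'] [CompactSpace M']
    [ConnectedSpace M'] [ChartedSpace E' M'] [IsManifold 𝓘(ℝ, E') ∞ M']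
    (f : Diffeomorph 𝓘(ℝ, E) 𝓘(ℝ, E) M M 1)
    (Es Eu : ∀ x : M, Submodule ℝ (TangentSpace 𝓘(ℝ, E) x)) (hf : IsAnosov f Es Eu)
    (g : Diffeomorph 𝓘(ℝ, E') 𝓘(ℝ, E') M' M' 1)
    (Es' Eu' : ∀ x : M', Submodule ℝ (TangentSpace 𝓘(ℝ, E') x)) (hg : IsAnosov g Es' Eu')
    (hG : GPS g.toHomeomorph) (h : M → M') (hc : Continuous h) (hh : ∀ x, h (f x) = g (h x)) :
    List.TFAE [TopTransitive f ∧ ∃ p ∈ Function.periodicPts f, ∃ B : ℕ,
        ∀ y, {q | Asym f p q ∧ Asym f.symm p q ∧ h q = y}.encard ≤ B,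
      ∃ x, (∀ z, MapClusterPt z atTop fun n : ℕ => f^[n] x) ∧
        {y | h y = h x ∧ Asym f x y ∧ Asym f.symm x y}.Finite,
      TopTransitive f ∧ GPS f.toHomeomorph ∧ ∃ N : ℕ, ∀ y, (h ⁻¹' {y}).encard ≤ N,
      TopTransitive f ∧ GPS f.toHomeomorph ∧ ∀ x, ∃ U ∈ 𝓝 x, InjOn h U] := by
  have hgx := expansive_of_anosov g Es' Eu' hg
  have key := man_trans f Es Eu hf g Es' Eu' hg hG h hc hh
  have k25 := key.out 1 4
  tfae_have 1 → 3 := fun ⟨hT, p, hp, B, hB⟩ =>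
    k25.1 (gen_per f Es Eu hf g.toHomeomorph hgx h hc hh hT hp B hB)
  tfae_have 2 → 3 := fun ⟨x, hx, hfin⟩ =>
    k25.1 (gen_one f Es Eu hf g.toHomeomorph hgx h hc hh hx hfin)
  tfae_have 3 → 4 := by
    rintro ⟨hT, hGf, N, hN⟩
    obtain ⟨p, hp⟩ := man_pp f Es Eu hf hT
    have hfib : (h ⁻¹' {h p}).Finite := Set.finite_of_encard_le_coe (hN (h p))
    exact ⟨hT, hGf, man_exp_one f Es Eu hf hGf g.toHomeomorph hgx h hc hh hp
      (Or.inl (hfib.subset inter_subset_left))⟩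
  tfae_have 4 → 3 := by
    rintro ⟨hT, hGf, hloc⟩
    refine ⟨hT, hGf, ?_⟩
    obtain ⟨δ, hδ, h1⟩ := unif_loc hloc
    obtain ⟨t, -, htf, ht⟩ := finite_cover_balls_of_compact (isCompact_univ (X := M))
      (half_pos hδ)
    refine ⟨htf.toFinset.card, fun y => ?_⟩
    have hex : ∀ x : M, ∃ c ∈ t, dist x c < δ / 2 := fun x => by
      obtain ⟨c, hc1, hc2⟩ := mem_iUnion₂.1 (ht (mem_univ x))
      exact ⟨c, hc1, hc2⟩
    choose c hc1 hc2 using hex
    have h3 : (h ⁻¹' {y}).encard ≤ t.encard := by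
      refine Set.encard_le_encard_of_injOn (f := c) (fun x _ => hc1 x) ?_
      intro x hx x' hx' hcc
      have e1 : h x = y := hx
      have e2 : h x' = y := hx'
      refine h1 x x' ?_ (e1.trans e2.symm)
      have e3 := hc2 x
      have e4 := hc2 x'
      rw [← hcc] at e4
      have := dist_triangle_right x x' (c x)
      linarith
    rwa [htf.encard_eq_coe_toFinset_card] at h3
  tfae_have 3 → 2 := by
    intro h3
    obtain ⟨x, hx⟩ := exists_rec (g := f.toHomeomorph) h3.1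
    refine ⟨x, hx, (Set.finite_singleton x).subset ?_⟩
    rintro y ⟨e1, e2, e3⟩
    exact (k25.2 h3 x y e1.symm e2 e3).symm
  tfae_have 3 → 1 := by
    intro h3
    obtain ⟨p, hp⟩ := man_pp f Es Eu hf h3.1
    refine ⟨h3.1, p, hp, 1, fun y => ?_⟩
    rw [Nat.cast_one, Set.encard_le_one_iff]
    rintro a b ⟨a1, a2, a3⟩ ⟨b1, b2, b3⟩
    have h4 := hm_trans (hm_symm ((hm_iff f.toHomeomorph p a).2 ⟨a1, a2⟩))
      ((hm_iff f.toHomeomorph p b).2 ⟨b1, b2⟩)
    obtain ⟨h5, h6⟩ := (hm_iff f.toHomeomorph a b).1 h4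
    exact k25.2 h3 a b (a3.trans b3.symm) h5 h6
  tfae_finish

end Pool.Agent.J4H56.HT
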