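import Pool.Agent.H789R2.GP.Defs
import Pool.Agent.TH289.Def
import Pool.Agent.TH289.K.Def
import Pool.Agent.W740.TC.Def
import Pool.Agent.H779R2.To.TDef

/-!
# Project HT (MP_0a0487_an): homologically trivial homoclinic loops

Statements of the pieces.
-/

set_option autoImplicit false

open Filter Topology Set Metric unitInterval

universe w

namespace Pool.Agent.J4H56.HT

open Pool.Agent.H789R2.AN Pool.Agent.H789R2.GP Pool.Agent.TH289 Pool.Agent.TH289.K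
open Pool.Agent.W740.TC (torusMap)
open Pool.Agent.H779R2.To (HypMat)

/-- the torus -/
abbrev T (k : ℕ) : Type := Fin k → AddCircle (1 : ℝ)

/-- the action of an integer matrix on vectors -/
noncomputable def mv {k : ℕ} (A : Matrix (Fin k) (Fin k) ℤ) (v : Fin k → ℝ) : Fin k → ℝ :=
  fun i => ∑ j, (A i j : ℝ) * v j

/-- the point of the torus given by a vector -/
noncomputable def pr {k : ℕ} (v : Fin k → ℝ) : T k := fun i => ((v i : ℝ) : AddCircle (1 : ℝ))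

/-- quantitative hyperbolicity of a pair of inverse integer matrices -/
structure HD {k : ℕ} (A A' : Matrix (Fin k) (Fin k) ℤ) : Prop where
  mul : A * A' = 1
  mul' : A' * A = 1
  ex : ∃ C l : ℝ, 1 ≤ C ∧ 0 < l ∧ l < 1 ∧
    (∀ v : Fin k → ℝ, (∃ (K : ℝ) (n₀ : ℕ), ∀ n ≥ n₀, ‖(mv A)^[n] v‖ ≤ K) →
      ∀ n, ‖(mv A)^[n] v‖ ≤ C * l ^ n * ‖v‖) ∧
    (∀ v : Fin k → ℝ, (∃ (K : ℝ) (n₀ : ℕ), ∀ n ≥ n₀, ‖(mv A')^[n] v‖ ≤ K) →
      ∀ n, ‖(mv A')^[n] v‖ ≤ C * l ^ n * ‖v‖) ∧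
    ∃ S U : (Fin k → ℝ) →L[ℝ] (Fin k → ℝ), (∀ v, S v + U v = v) ∧
      (∀ (n : ℕ) (v : Fin k → ℝ), ‖(mv A)^[n] (S v)‖ ≤ C * l ^ n * ‖v‖) ∧
      ∀ (n : ℕ) (v : Fin k → ℝ), ‖(mv A')^[n] (U v)‖ ≤ C * l ^ n * ‖v‖

theorem HD.symm {k : ℕ} {A A' : Matrix (Fin k) (Fin k) ℤ} (h : HD A A') : HD A' A where
  mul := h.mul'
  mul' := h.mul
  ex := by
    obtain ⟨C, l, h1, h2, h3, h4, h5, S, U, h6, h7, h8⟩ := h.ex
    exact ⟨C, l, h1, h2, h3, h5, h4, U, S, fun v => by rw [add_comm]; exact h6 v, h8, h7⟩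

theorem torusMap_inv {k : ℕ} {A A' : Matrix (Fin k) (Fin k) ℤ} (h : A' * A = 1) (x : T k) :
    torusMap A' (torusMap A x) = x := by
  funext i
  show ∑ j, A' i j • ∑ m, A j m • x m = x i
  have h2 : ∑ j, A' i j • ∑ m, A j m • x m = ∑ m, (∑ j, A' i j * A j m) • x m := by
    simp only [Finset.smul_sum, Finset.sum_smul, smul_smul]
    rw [Finset.sum_comm]
  have h3 : ∀ m, ∑ j, A' i j * A j m = (1 : Matrix (Fin k) (Fin k) ℤ) i m := fun m => by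
    rw [← h]
    rfl
  rw [h2]
  simp only [h3, Matrix.one_apply, ite_smul, one_smul, zero_smul, Finset.sum_ite_eq,
    Finset.mem_univ, if_true]

/-- the automorphism of the torus -/
noncomputable def tor {k : ℕ} {A A' : Matrix (Fin k) (Fin k) ℤ} (h : HD A A') : T k ≃ₜ T k where
  toFun := torusMap A
  invFun := torusMap A'
  left_inv := torusMap_inv h.mul'
  right_inv := torusMap_inv h.mul
  continuous_toFun := (torusMap A).continuous
  continuous_invFun := (torusMap A').continuous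

theorem tor_symm {k : ℕ} {A A' : Matrix (Fin k) (Fin k) ℤ} (h : HD A A') :
    (tor h).symm = tor h.symm := rfl

/-- (L1) hyperbolic integer matrices -/
def S_L1 : Prop := ∀ (k : ℕ) (A : Matrix (Fin k) (Fin k) ℤ), IsUnit A.det → HypMat A → HD A A⁻¹

/-- (T1) local product structure of the large iterates -/
def S_T1 : Prop := ∀ (k : ℕ) (A A' : Matrix (Fin k) (Fin k) ℤ) (h : HD A A'),
  ∃ N₀ : ℕ, ∀ N ≥ N₀, ∀ G : T k ≃ₜ T k, (∀ x, G x = (tor h)^[N] x) →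
    (∀ x, G.symm x = (tor h).symm^[N] x) → ∃ c, LP G c

/-- (T2) uniform local connectedness of the torus -/
def S_T2 : Prop := ∀ k : ℕ, ULC (T k)

/-- (T3) global product structure -/
def S_T3 : Prop := ∀ (k : ℕ) (A A' : Matrix (Fin k) (Fin k) ℤ) (h : HD A A'), GPS (tor h)

/-- (T4) expansiveness -/
def S_T4 : Prop := ∀ (k : ℕ) (A A' : Matrix (Fin k) (Fin k) ℤ) (h : HD A A'), Expansive (tor h)

/-- (F1) the semiconjugacy of Franks -/
def S_F1 : Prop := ∀ (k : ℕ) (A A' : Matrix (Fin k) (Fin k) ℤ), HD A A' →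
  ∀ (X : Type w) [MetricSpace X] [CompactSpace X] (f : X ≃ₜ X) (e : X → Fin k → ℝ), Continuous e →
    ∃ u : X → Fin k → ℝ, Continuous u ∧ ∀ x, mv A (u x) = u (f x) + e x

/-- (H1) stable paths displace along the stable space.  `θ` is a lift of `h ∘ α`. -/
def S_H1 : Prop := ∀ (k : ℕ) (A A' : Matrix (Fin k) (Fin k) ℤ), HD A A' →
  ∀ (X : Type w) [MetricSpace X] [CompactSpace X] (f : X ≃ₜ X) (h : X → T k), Continuous h →
    (∀ x, h (f x) = torusMap A (h x)) → ∀ (α : C(I, X)) (θ : C(I, Fin k → ℝ)),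
    StablePath f α → (∀ t, pr (θ t) = h (α t)) →
    ∃ (K : ℝ) (n₀ : ℕ), ∀ n ≥ n₀, ‖(mv A)^[n] (θ 1 - θ 0)‖ ≤ K

/-- (H2) lifting of paths -/
def S_H2 : Prop := ∀ (k : ℕ) (γ : C(I, T k)) (v : Fin k → ℝ), pr v = γ 0 →
  ∃ θ : C(I, Fin k → ℝ), θ 0 = v ∧ ∀ t, pr (θ t) = γ t

/-- (H3) integer vectors with a bounded forward orbit, and vectors with both orbits bounded,
vanish -/
def S_H3 : Prop := ∀ (k : ℕ) (A A' : Matrix (Fin k) (Fin k) ℤ), HD A A' → ∀ v : Fin k → ℝ,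
  (∃ (K : ℝ) (n₀ : ℕ), ∀ n ≥ n₀, ‖(mv A)^[n] v‖ ≤ K) →
  (pr v = 0 ∨ ∃ (K : ℝ) (n₀ : ℕ), ∀ n ≥ n₀, ‖(mv A')^[n] v‖ ≤ K) → v = 0

end Pool.Agent.J4H56.HT
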