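import Pool.Agent.W740.TC.Conv
import Pool.Agent.H779R2.To.TInv
import Pool.Agent.J4H56.HT.Stm

/-!
# Hyperbolic integer matrices
-/

set_option autoImplicit false
set_option linter.unusedSectionVars false

open Filter Topology Set Metric

namespace Pool.Agent.J4H56.HT

open Pool.Agent.W740.TC
open Pool.Agent.H779R2.To (HypMat HypMat.inv_aux)

/-- real parts -/
noncomputable def re (k : ℕ) : (Fin k → ℂ) →ₗ[ℝ] (Fin k → ℝ) where
  toFun w := fun i => (w i).re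
  map_add' v w := by funext i; simp
  map_smul' r v := by funext i; simp

theorem re_norm {k : ℕ} (w : Fin k → ℂ) : ‖re k w‖ ≤ ‖w‖ := by
  rw [pi_norm_le_iff_of_nonneg (norm_nonneg _)]
  intro i
  rw [Real.norm_eq_abs]
  exact (Complex.abs_re_le_norm (w i)).trans (norm_le_pi_norm w i)

theorem re_inc {k : ℕ} (v : Fin k → ℝ) : re k (inc k v) = v := by
  funext i
  exact Complex.ofReal_re _

theorem mv_re {k : ℕ} (A : Matrix (Fin k) (Fin k) ℤ) (w : Fin k → ℂ) :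
    am A (re k w) = re k (cx A w) := by
  funext i
  show ∑ j, (A i j : ℝ) * (w j).re = ((Matrix.toLin' (A.map (Int.cast : ℤ → ℂ)) w) i).re
  rw [Matrix.toLin'_apply, Matrix.mulVec, dotProduct, Complex.re_sum]
  refine Finset.sum_congr rfl fun j _ => ?_
  simp

theorem mv_re_iter {k : ℕ} (A : Matrix (Fin k) (Fin k) ℤ) (n : ℕ) (w : Fin k → ℂ) :
    (am A)^[n] (re k w) = re k (((cx A) ^ n) w) := by
  induction n with
  | zero => rfl
  | succ n ih =>
    rw [Function.iterate_succ_apply', ih, pow_succ', mv_re]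
    rfl

theorem exists_split {m : ℕ} (A A' : Matrix (Fin m) (Fin m) ℤ) (hAA : A * A' = 1)
    (hA : HypMat A) : ∃ C l : ℝ, 1 ≤ C ∧ 0 < l ∧ l < 1 ∧
    ∃ S U : (Fin m → ℝ) →L[ℝ] (Fin m → ℝ), (∀ v, S v + U v = v) ∧
      (∀ (n : ℕ) (v : Fin m → ℝ), ‖(am A)^[n] (S v)‖ ≤ C * l ^ n * ‖v‖) ∧
      ∀ (n : ℕ) (v : Fin m → ℝ), ‖(am A')^[n] (U v)‖ ≤ C * l ^ n * ‖v‖ := by
  set T := cx A with hT
  set T' := cx A' with hT'
  have hTT : ∀ w, T (T' w) = w := by
    intro w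
    show Matrix.toLin' (A.map (Int.cast : ℤ → ℂ)) (Matrix.toLin' (A'.map (Int.cast : ℤ → ℂ)) w) = w
    rw [← LinearMap.comp_apply, ← Matrix.toLin'_mul]
    have h1 : A.map (Int.cast : ℤ → ℂ) * A'.map (Int.cast : ℤ → ℂ) = 1 := by
      have h2 := congrArg (fun B : Matrix (Fin m) (Fin m) ℤ => B.map (Int.castRingHom ℂ)) hAA
      simp only [Matrix.map_mul] at h2
      rw [Matrix.map_one _ (map_zero _) (map_one _)] at h2
      exact h2
    rw [h1, Matrix.toLin'_one]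
    rfl
  have heig : ∀ ν : ℂ, T.HasEigenvalue ν → ‖ν‖ ≠ 1 := by
    intro ν hν h1
    rw [Module.End.hasEigenvalue_iff_isRoot_charpoly] at hν
    apply hA ν h1
    have h2 : T.charpoly = (A.map (Int.castRingHom ℂ)).charpoly := Matrix.charpoly_toLin' _
    rwa [h2] at hν
  have hTpow : ∀ (n : ℕ) (w : Fin m → ℂ), (T ^ n) ((T' ^ n) w) = w := by
    intro n
    induction n with
    | zero => intro w; rfl
    | succ n ih =>
      intro w
      rw [pow_succ, pow_succ' T']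
      show (T ^ n) (T (T' ((T' ^ n) w))) = w
      rw [hTT, ih]
  obtain ⟨C₁, l₁, hl₁, hl₁', h1⟩ := Tu_exp T
  obtain ⟨C₂, l₂, hC₂, hl₂, hl₂', h2⟩ := Tc_contr T heig
  have hc := W_compl T
  have hbij : Function.Bijective T := by
    have hs : Function.Surjective T := fun w => ⟨T' w, hTT w⟩
    exact ⟨LinearMap.injective_iff_surjective.mpr hs, hs⟩
  have hT'T : ∀ w, T' (T w) = w := fun w => hbij.1 (hTT _)
  -- invariance under T'
  have hinv : ∀ (S : Submodule ℂ (Fin m → ℂ)), (∀ v ∈ S, T v ∈ S) → ∀ v ∈ S, T' v ∈ S := by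
    intro S hS v hv
    have h3 : Function.Injective (T.restrict hS) := by
      intro a b hab
      apply Subtype.ext
      apply hbij.1
      have := congrArg (fun w : S => (w : Fin m → ℂ)) hab
      exact this
    obtain ⟨w, hw⟩ := LinearMap.injective_iff_surjective.mp h3 ⟨v, hv⟩
    have h4 : T (w : Fin m → ℂ) = v := congrArg (fun w : S => (w : Fin m → ℂ)) hw
    rw [← h4, hT'T]
    exact w.2
  have hinvp : ∀ (S : Submodule ℂ (Fin m → ℂ)), (∀ v ∈ S, T v ∈ S) → ∀ (n : ℕ), ∀ v ∈ S,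
      (T' ^ n) v ∈ S := by
    intro S hS n
    induction n with
    | zero => intro v hv; exact hv
    | succ n ih =>
      intro v hv
      rw [pow_succ']
      exact hinv S hS _ (ih v hv)
  have hTu : ∀ (n : ℕ) (v : Wu T), (((Tu T) ^ n) v : Fin m → ℂ) = (T ^ n) v := by
    intro n
    induction n with
    | zero => intro v; rfl
    | succ n ih =>
      intro v
      rw [pow_succ', pow_succ' T]
      show T (((Tu T) ^ n) v : Fin m → ℂ) = T ((T ^ n) v)
      rw [ih]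
  have hTc : ∀ (n : ℕ) (v : Wc T), (((Tc T) ^ n) v : Fin m → ℂ) = (T ^ n) v := by
    intro n
    induction n with
    | zero => intro v; rfl
    | succ n ih =>
      intro v
      rw [pow_succ', pow_succ' T]
      show T (((Tc T) ^ n) v : Fin m → ℂ) = T ((T ^ n) v)
      rw [ih]
  obtain ⟨Kp, hKp0, hKp⟩ : ∃ Kp : ℝ, 0 ≤ Kp ∧
      ∀ w, ‖((Wc T).projectionOnto (Wu T) hc.symm) w‖ ≤ Kp * ‖w‖ :=
    ⟨‖LinearMap.toContinuousLinearMap ((Wc T).projectionOnto (Wu T) hc.symm)‖,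
      ContinuousLinearMap.opNorm_nonneg _,
      (LinearMap.toContinuousLinearMap ((Wc T).projectionOnto (Wu T) hc.symm)).le_opNorm⟩
  obtain ⟨Kq, hKq0, hKq⟩ : ∃ Kq : ℝ, 0 ≤ Kq ∧
      ∀ w, ‖((Wu T).projectionOnto (Wc T) hc) w‖ ≤ Kq * ‖w‖ :=
    ⟨‖LinearMap.toContinuousLinearMap ((Wu T).projectionOnto (Wc T) hc)‖,
      ContinuousLinearMap.opNorm_nonneg _,
      (LinearMap.toContinuousLinearMap ((Wu T).projectionOnto (Wc T) hc)).le_opNorm⟩
  let S₀ : (Fin m → ℝ) →ₗ[ℝ] (Fin m → ℝ) := (re m) ∘ₗ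
    (((Wc T).subtype ∘ₗ ((Wc T).projectionOnto (Wu T) hc.symm)).restrictScalars ℝ) ∘ₗ (inc m)
  let U₀ : (Fin m → ℝ) →ₗ[ℝ] (Fin m → ℝ) := (re m) ∘ₗ
    (((Wu T).subtype ∘ₗ ((Wu T).projectionOnto (Wc T) hc)).restrictScalars ℝ) ∘ₗ (inc m)
  set C := max 1 (max (C₂ * Kp) (|C₁| * Kq)) with hC
  set l := max (max l₁ l₂) (1 / 2) with hl
  have hl0 : 0 < l := lt_of_lt_of_le (by norm_num) (le_max_right _ _)
  refine ⟨C, l, le_max_left _ _, hl0, max_lt (max_lt hl₁' hl₂') (by norm_num),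
    LinearMap.toContinuousLinearMap S₀, LinearMap.toContinuousLinearMap U₀, fun v => ?_,
    fun n v => ?_, fun n v => ?_⟩
  · show S₀ v + U₀ v = v
    show re m ((Wc T).projectionOnto (Wu T) hc.symm (inc m v) : Fin m → ℂ) +
      re m ((Wu T).projectionOnto (Wc T) hc (inc m v) : Fin m → ℂ) = v
    rw [← map_add, add_comm]
    have h5 : (((Wu T).projectionOnto (Wc T) hc) (inc m v) : Fin m → ℂ) +
        (((Wc T).projectionOnto (Wu T) hc.symm) (inc m v) : Fin m → ℂ) = inc m v :=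
      Submodule.projection_add_projection_eq_self hc (inc m v)
    rw [h5, re_inc]
  · show ‖(am A)^[n] (re m ((Wc T).projectionOnto (Wu T) hc.symm (inc m v) : Fin m → ℂ))‖ ≤ _
    rw [mv_re_iter]
    refine (re_norm _).trans ?_
    have e1 := h2 n ((Wc T).projectionOnto (Wu T) hc.symm (inc m v))
    have e2 : ‖((Tc T) ^ n) ((Wc T).projectionOnto (Wu T) hc.symm (inc m v))‖ =
        ‖(T ^ n) ((Wc T).projectionOnto (Wu T) hc.symm (inc m v) : Fin m → ℂ)‖ := by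
      rw [← hTc]
      rfl
    rw [e2] at e1
    refine e1.trans ?_
    have e3 := hKp (inc m v)
    rw [inc_norm] at e3
    calc C₂ * l₂ ^ n * ‖(Wc T).projectionOnto (Wu T) hc.symm (inc m v)‖
        ≤ C₂ * l₂ ^ n * (Kp * ‖v‖) :=
          mul_le_mul_of_nonneg_left e3 (mul_nonneg hC₂ (pow_nonneg hl₂ n))
      _ = (C₂ * Kp) * l₂ ^ n * ‖v‖ := by ring
      _ ≤ C * l ^ n * ‖v‖ := by
          refine mul_le_mul_of_nonneg_right ?_ (norm_nonneg _)
          refine mul_le_mul ((le_max_left _ _).trans (le_max_right _ _))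
            (pow_le_pow_left₀ hl₂ ((le_max_right _ _).trans (le_max_left _ _)) n)
            (pow_nonneg hl₂ n) (zero_le_one.trans (le_max_left _ _))
  · show ‖(am A')^[n] (re m ((Wu T).projectionOnto (Wc T) hc (inc m v) : Fin m → ℂ))‖ ≤ _
    rw [mv_re_iter]
    refine (re_norm _).trans ?_
    set p := (Wu T).projectionOnto (Wc T) hc (inc m v) with hp
    have e1 := h1 n ⟨(T' ^ n) (p : Fin m → ℂ), hinvp (Wu T) (Wu_map T) n _ p.2⟩
    have e2 : ‖((Tu T) ^ n) ⟨(T' ^ n) (p : Fin m → ℂ), hinvp (Wu T) (Wu_map T) n _ p.2⟩‖ =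
        ‖p‖ := by
      have : ((((Tu T) ^ n) ⟨(T' ^ n) (p : Fin m → ℂ), hinvp (Wu T) (Wu_map T) n _ p.2⟩ : Wu T) :
          Fin m → ℂ) = p := by
        rw [hTu]
        exact hTpow n _
      show ‖((((Tu T) ^ n) ⟨(T' ^ n) (p : Fin m → ℂ), hinvp (Wu T) (Wu_map T) n _ p.2⟩ : Wu T) :
          Fin m → ℂ)‖ = ‖(p : Fin m → ℂ)‖
      rw [this]
    rw [e2] at e1
    have e0 : ‖(T' ^ n) (p : Fin m → ℂ)‖ =
        ‖(⟨(T' ^ n) (p : Fin m → ℂ), hinvp (Wu T) (Wu_map T) n _ p.2⟩ : Wu T)‖ := rfl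
    show ‖(T' ^ n) (p : Fin m → ℂ)‖ ≤ _
    rw [e0]
    refine e1.trans ?_
    have e3 := hKq (inc m v)
    rw [inc_norm] at e3
    calc C₁ * l₁ ^ n * ‖p‖ ≤ |C₁| * l₁ ^ n * ‖p‖ := by
          refine mul_le_mul_of_nonneg_right ?_ (norm_nonneg _)
          exact mul_le_mul_of_nonneg_right (le_abs_self _) (pow_nonneg hl₁ n)
      _ ≤ |C₁| * l₁ ^ n * (Kq * ‖v‖) :=
          mul_le_mul_of_nonneg_left e3 (mul_nonneg (abs_nonneg _) (pow_nonneg hl₁ n))
      _ = (|C₁| * Kq) * l₁ ^ n * ‖v‖ := by ring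
      _ ≤ C * l ^ n * ‖v‖ := by
          refine mul_le_mul_of_nonneg_right ?_ (norm_nonneg _)
          refine mul_le_mul ((le_max_right _ _).trans (le_max_right _ _))
            (pow_le_pow_left₀ hl₁ ((le_max_left _ _).trans (le_max_left _ _)) n)
            (pow_nonneg hl₁ n) (zero_le_one.trans (le_max_left _ _))

theorem t_L1 : S_L1 := by
  intro k A hdet hA
  have hm : A * A⁻¹ = 1 := Matrix.mul_nonsing_inv A hdet
  have hm' : A⁻¹ * A = 1 := Matrix.nonsing_inv_mul A hdet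
  have hA' : HypMat A⁻¹ := HypMat.inv_aux A hdet hA
  obtain ⟨C₁, l₁, hC₁, hl₁, hl₁', h1⟩ := bdd_contr A A⁻¹ hm hA
  obtain ⟨C₂, l₂, hC₂, hl₂, hl₂', h2⟩ := bdd_contr A⁻¹ A hm' hA'
  obtain ⟨C₃, l₃, hC₃, hl₃, hl₃', S, U, h3, h4, h5⟩ := exists_split A A⁻¹ hm hA
  have hmon : ∀ (C l : ℝ), 0 ≤ C → 0 ≤ l → C ≤ max C₁ (max C₂ C₃) → l ≤ max l₁ (max l₂ l₃) →
      ∀ (n : ℕ) (x : ℝ), 0 ≤ x → C * l ^ n * x ≤
        max C₁ (max C₂ C₃) * (max l₁ (max l₂ l₃)) ^ n * x := by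
    intro C l hC hl e1 e2 n x hx
    refine mul_le_mul_of_nonneg_right ?_ hx
    exact mul_le_mul e1 (pow_le_pow_left₀ hl e2 n) (pow_nonneg hl n) (hC.trans e1)
  refine ⟨hm, hm', max C₁ (max C₂ C₃), max l₁ (max l₂ l₃), hC₁.trans (le_max_left _ _),
    lt_of_lt_of_le hl₁ (le_max_left _ _), max_lt hl₁' (max_lt hl₂' hl₃'), fun v hv n => ?_,
    fun v hv n => ?_, S, U, h3, fun n v => ?_, fun n v => ?_⟩
  · exact (h2 v hv n).trans (hmon _ _ (zero_le_one.trans hC₂) hl₂.le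
      ((le_max_left _ _).trans (le_max_right _ _)) ((le_max_left _ _).trans (le_max_right _ _))
      n _ (norm_nonneg _))
  · exact (h1 v hv n).trans (hmon _ _ (zero_le_one.trans hC₁) hl₁.le
      (le_max_left _ _) (le_max_left _ _) n _ (norm_nonneg _))
  · exact (h4 n v).trans (hmon _ _ (zero_le_one.trans hC₃) hl₃.le
      ((le_max_right _ _).trans (le_max_right _ _)) ((le_max_right _ _).trans (le_max_right _ _))
      n _ (norm_nonneg _))
  · exact (h5 n v).trans (hmon _ _ (zero_le_one.trans hC₃) hl₃.le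
      ((le_max_right _ _).trans (le_max_right _ _)) ((le_max_right _ _).trans (le_max_right _ _))
      n _ (norm_nonneg _))

end Pool.Agent.J4H56.HT
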