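import Pool.Agent.J4H56.HT.Loop
import Pool.Agent.J4H56.HT.Bp

/-!
# Bounded multiplicity of the classes at one periodic point
-/

set_option autoImplicit false
set_option linter.unusedSectionVars false

open Filter Topology Set Metric
open scoped Manifold ContDiff

namespace Pool.Agent.J4H56.HT

open Pool.Agent.H721R2 Pool.Agent.H789R2.AN Pool.Agent.TH289 Pool.Agent.TH289.K
open Pool.Agent.Y331.EP Pool.Agent.TH289.L
open Pool.Agent.W740.TC (torusMap)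
open Pool.Agent.H779R2.To (IsToral HypMat)

section abs

variable {k : ℕ} {A A' : Matrix (Fin k) (Fin k) ℤ} {X : Type*} [MetricSpace X] [CompactSpace X]

/-- the class of a homoclinic point is well defined -/
theorem loop_unique (hD : HD A A') {f : X ≃ₜ X} {φ : X → T k} (hφ : Continuous φ)
    {u : X → Fin k → ℝ} (hu : Continuous u)
    (hh : ∀ x, φ (f x) + pr (u (f x)) = torusMap A (φ x + pr (u x))) {p q : X}
    {c c' : Fin k → ℝ} (h1 : LoopClass f φ p q c) (h2 : LoopClass f φ p q c') : c = c' := by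
  have hh' : ∀ x, φ (f.symm x) + pr (u (f.symm x)) = torusMap A' (φ x + pr (u x)) :=
    fun x => semi_symm hD (h := fun x => φ x + pr (u x)) hh x
  obtain ⟨α, β, θ, η, hα, hβ, hα0, hβ0, hα1, hβ1, hθ, hη, he⟩ := h1
  obtain ⟨α', β', θ', η', hα', hβ', hα0', hβ0', hα1', hβ1', hθ', hη', he'⟩ := h2
  have key : ∀ {B B' : Matrix (Fin k) (Fin k) ℤ} (hB : HD B B') (γ γ' : C(unitInterval, X))
      (ζ ζ' : C(unitInterval, Fin k → ℝ)), γ 0 = p → γ 1 = q → γ' 0 = p → γ' 1 = q →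
      (∀ t, pr (ζ t) = φ (γ t)) → (∀ t, pr (ζ' t) = φ (γ' t)) →
      (∃ (K : ℝ) (n₀ : ℕ), ∀ n ≥ n₀,
        ‖(mv B)^[n] ((ζ 1 - ζ 0) + (u (γ 1) - u (γ 0)))‖ ≤ K) →
      (∃ (K : ℝ) (n₀ : ℕ), ∀ n ≥ n₀,
        ‖(mv B)^[n] ((ζ' 1 - ζ' 0) + (u (γ' 1) - u (γ' 0)))‖ ≤ K) →
      ζ 1 - ζ 0 = ζ' 1 - ζ' 0 := by
    intro B B' hB γ γ' ζ ζ' h0 h1 h0' h1' hζ hζ' hK hK'
    have b := bdd_sub hK hK'
    have h2 := t_H3 k B B' hB _ b (Or.inl (by
      rw [pr_sub, pr_add, pr_add, pr_sub, pr_sub, pr_sub, pr_sub, hζ, hζ, hζ', hζ', h0, h1, h0',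
        h1', sub_self]))
    rw [h0, h1, h0', h1'] at h2
    have h3 := sub_eq_zero.mp h2
    exact add_right_cancel h3
  have k1 := key hD α α' θ θ' hα0 hα1 hα0' hα1' (fun t => funext fun i => hθ t i)
    (fun t => funext fun i => hθ' t i)
    (disp_bdd hD hφ hu hh hα fun t => funext fun i => hθ t i)
    (disp_bdd hD hφ hu hh hα' fun t => funext fun i => hθ' t i)
  have k2 := key hD.symm β β' η η' hβ0 hβ1 hβ0' hβ1' (fun t => funext fun i => hη t i)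
    (fun t => funext fun i => hη' t i)
    (disp_bdd hD.symm hφ hu hh' hβ fun t => funext fun i => hη t i)
    (disp_bdd hD.symm hφ hu hh' hβ' fun t => funext fun i => hη' t i)
  rw [← he, ← he', k1, k2]

end abs

universe u

variable {E : Type*} [NormedAddCommGroup E] [NormedSpace ℝ E] [FiniteDimensional ℝ E]
variable {M : Type u} [MetricSpace M] [CompactSpace M] [ConnectedSpace M]
    [ChartedSpace E M] [IsManifold 𝓘(ℝ, E) ∞ M]

/-- bounded multiplicity of the classes at one periodic point is enough -/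
theorem man_per_bdd (f : Diffeomorph 𝓘(ℝ, E) 𝓘(ℝ, E) M M 1)
    (Es Eu : ∀ x : M, Submodule ℝ (TangentSpace 𝓘(ℝ, E) x)) (hf : IsAnosov f Es Eu)
    {k : ℕ} {A : Matrix (Fin k) (Fin k) ℤ} (hdet : IsUnit A.det) (hA : HypMat A)
    (φ h : C(M, Fin k → AddCircle (1 : ℝ))) (hh1 : h.Homotopic φ)
    (hh2 : ∀ x, h (f x) = torusMap A (h x)) (hT : TopTransitive f) {p : M}
    (hp : p ∈ Function.periodicPts f) (B : ℕ)
    (hB : ∀ c, {q | LoopClass f.toHomeomorph φ p q c}.encard ≤ B) :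
    ∀ x y, HomTriv f.toHomeomorph φ x y → x = y := by
  have hD := t_L1 k A hdet hA
  intro x0 y0 h0
  obtain ⟨eg, hG⟩ := ex_of_expansive (t_T4 k A _ hD)
  obtain ⟨ef, hE⟩ := ex_of_expansive (expansive_of_anosov f Es Eu hf)
  obtain ⟨h1, h2, h3⟩ := (man_homtriv_iff f Es Eu hf hD φ h hh1 hh2 x0 y0).1 h0
  obtain ⟨r, hr, hrp⟩ := hp
  obtain ⟨u, hu, hu2⟩ := exists_u hh1
  have hh' : ∀ x, φ (f.toHomeomorph x) + pr (u (f.toHomeomorph x)) =
      torusMap A (φ x + pr (u x)) := by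
    intro x
    rw [← hu2, ← hu2]
    exact hh2 x
  have hfs := Pool.Agent.W740.TU.anosov_symm f Es Eu hf
  have hex : ∀ x y, Hm f.toHomeomorph p x → Hm f.toHomeomorph p y → h x = h y →
      ∃ c, LoopClass f.toHomeomorph φ p x c ∧ LoopClass f.toHomeomorph φ p y c := by
    intro x y hx hy hxy
    obtain ⟨hx1, hx2⟩ := (hm_iff f.toHomeomorph p x).1 hx
    obtain ⟨hy1, hy2⟩ := (hm_iff f.toHomeomorph p y).1 hy
    obtain ⟨α, hα, hα0, hα1⟩ := man_stable_path f Es Eu hf hx1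
    obtain ⟨β, hβ, hβ0, hβ1⟩ := man_stable_path f.symm Eu Es hfs hx2
    obtain ⟨α', hα', hα0', hα1'⟩ := man_stable_path f Es Eu hf hy1
    obtain ⟨β', hβ', hβ0', hβ1'⟩ := man_stable_path f.symm Eu Es hfs hy2
    exact loop_same hD φ.continuous hu hh' (q := x) (q' := y) (by
      rw [← hu2, ← hu2]
      exact hxy) hα hβ hα' hβ' hα0 hα1 hβ0 hβ1 hα0' hα1' hβ0' hβ1'
  refine inj_of_bdd_per hE (man_shad f Es Eu hf) hG h.continuous hh2
    (show TT f.toHomeomorph from hT) hr hrp B (fun z => ?_) h1.symm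
    ((hm_iff f.toHomeomorph x0 y0).2 ⟨h2, h3⟩)
  rcases Set.eq_empty_or_nonempty {x | Hm f.toHomeomorph p x ∧ h x = z} with hem | ⟨x1, hx1, hx1'⟩
  · rw [hem, Set.encard_empty]
    exact bot_le
  · obtain ⟨c1, hc1, -⟩ := hex x1 x1 hx1 hx1 rfl
    refine (Set.encard_le_encard ?_).trans (hB c1)
    rintro x ⟨hx, hx'⟩
    obtain ⟨c, hc, hc'⟩ := hex x1 x hx1 hx (hx1'.trans hx'.symm)
    have e := loop_unique hD φ.continuous hu hh' hc hc1
    rw [e] at hc'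
    exact hc'

/-- all conditions, for one homotopy class -/
theorem man_all3 (f : Diffeomorph 𝓘(ℝ, E) 𝓘(ℝ, E) M M 1)
    (Es Eu : ∀ x : M, Submodule ℝ (TangentSpace 𝓘(ℝ, E) x)) (hf : IsAnosov f Es Eu)
    {k : ℕ} {A : Matrix (Fin k) (Fin k) ℤ} (hdet : IsUnit A.det) (hA : HypMat A)
    (φ : C(M, Fin k → AddCircle (1 : ℝ)))
    (hφ : (φ.comp ⟨f, f.continuous⟩).Homotopic ((torusMap A).comp φ))
    (h : C(M, Fin k → AddCircle (1 : ℝ))) (hh1 : h.Homotopic φ)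
    (hh2 : ∀ x, h (f x) = torusMap A (h x)) :
    List.TFAE [∀ x y, LoopClass f.toHomeomorph φ x y 0 → x = y,
      ∃ B : ℕ, ∀ x, {y | LoopClass f.toHomeomorph φ x y 0}.encard ≤ B,
      ∃ x, (∀ z, MapClusterPt z atTop fun n : ℕ => f^[n] x) ∧
        {y | LoopClass f.toHomeomorph φ x y 0}.Finite,
      TopTransitive f ∧ ∃ p ∈ Function.periodicPts f, ∀ q q' c,
        LoopClass f.toHomeomorph φ p q c → LoopClass f.toHomeomorph φ p q' c → q = q',
      TopTransitive f ∧ ∃ p ∈ Function.periodicPts f, ∃ B : ℕ,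
        ∀ c, {q | LoopClass f.toHomeomorph φ p q c}.encard ≤ B,
      ∀ y, (h ⁻¹' {y}).Countable,
      ∃ N : ℕ, ∀ y, (h ⁻¹' {y}).encard ≤ N,
      TopTransitive f ∧
        Dynamics.coverEntropy f univ ≤ Dynamics.coverEntropy (torusMap A) (range h)] ∧
    ((∀ x y, LoopClass f.toHomeomorph φ x y 0 → x = y) →
      TopTransitive f ∧ IsToral f ∧ ∃ q : E → M, IsCoveringMap q ∧ Function.Surjective q) := by
  obtain ⟨key, key2⟩ := man_all'' f Es Eu hf hdet hA φ hφ h hh1 hh2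
  refine ⟨?_, key2⟩
  tfae_have 1 ↔ 2 := key.out 0 1
  tfae_have 2 ↔ 3 := key.out 1 2
  tfae_have 3 ↔ 4 := key.out 2 3
  tfae_have 4 ↔ 6 := key.out 3 4
  tfae_have 6 ↔ 7 := key.out 4 5
  tfae_have 7 ↔ 8 := key.out 5 6
  tfae_have 4 → 5 := by
    rintro ⟨hT, p, hp, hc⟩
    refine ⟨hT, p, hp, 1, fun c => ?_⟩
    rw [Nat.cast_one, Set.encard_le_one_iff]
    exact fun a b ha hb => hc a b c ha hb
  tfae_have 5 → 1 := by
    rintro ⟨hT, p, hp, B, hB⟩ x y ⟨α, β, θ, η, a1, a2, a3, a4, a5, a6, a7, a8, a9⟩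
    exact man_per_bdd f Es Eu hf hdet hA φ h hh1 hh2 hT hp B hB x y
      ⟨α, β, θ, η, a1, a2, a3, a4, a5, a6, a7, a8, sub_eq_zero.mp a9⟩
  tfae_finish

end Pool.Agent.J4H56.HT
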