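import Pool.Agent.J4H56.HT.Poly
import Pool.Agent.J4H56.HT.L1
import Pool.Agent.J4H55.HT.F1
import Pool.Agent.J4H55.HT.T2
import Pool.Agent.W740.TC.Final

set_option autoImplicit false
set_option linter.unusedSectionVars false

open Filter Topology Set Metric
open scoped Manifold ContDiff

namespace Pool.Agent.J4H56.HT

open Pool.Agent.H721R2 Pool.Agent.H789R2.AN Pool.Agent.H789R2.GP Pool.Agent.TH289
open Pool.Agent.TH289.K Pool.Agent.TH289.L Pool.Agent.Y331.EP
open Pool.Agent.W740.TC (torusMap PolyDisp exists_e man_homotopy)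
open Pool.Agent.H779R2.To (IsToral HypMat)

section torus

variable {k : ℕ} {A A' : Matrix (Fin k) (Fin k) ℤ}

theorem tgt_tor (hD : HD A A') : Tgt (tor hD) where
  exp := t_T4 k A A' hD
  lp := by
    obtain ⟨N₀, h⟩ := t_T1 k A A' hD
    exact ⟨N₀, fun N hN => h N hN (iterHomeo (tor hD) N) (fun _ => rfl) (fun _ => rfl)⟩
  ulc := Pool.Agent.J4H55.HT.t_T2 k
  gps := t_T3 k A A' hD

theorem torusMap_add (A : Matrix (Fin k) (Fin k) ℤ) (x y : T k) :
    torusMap A (x + y) = torusMap A x + torusMap A y := by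
  funext i
  show ∑ j, A i j • (x j + y j) = ∑ j, A i j • x j + ∑ j, A i j • y j
  rw [← Finset.sum_add_distrib]
  exact Finset.sum_congr rfl fun j _ => smul_add _ _ _

universe u

variable {X : Type u} [MetricSpace X] [CompactSpace X]

/-- the semiconjugacy of Franks -/
theorem exists_franks (hD : HD A A') (f : X ≃ₜ X) (φ : C(X, Fin k → AddCircle (1 : ℝ)))
    (hφ : (φ.comp ⟨f, f.continuous⟩).Homotopic ((torusMap A).comp φ)) :
    ∃ u : X → Fin k → ℝ, Continuous u ∧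
      ∀ x, φ (f x) + pr (u (f x)) = torusMap A (φ x + pr (u x)) := by
  obtain ⟨e, he1, he2⟩ := exists_e hφ
  obtain ⟨u, hu1, hu2⟩ := Pool.Agent.J4H55.HT.t_F1 k A A' hD X f e he1
  refine ⟨u, hu1, fun x => ?_⟩
  have h1 : φ (f x) = torusMap A (φ x) + pr (e x) := by
    funext i
    exact he2 x i
  rw [h1, torusMap_add, ← pr_mv, hu2 x, pr_add]
  abel

/-- maps homotopic to `φ` -/
theorem exists_u {h φ : C(X, Fin k → AddCircle (1 : ℝ))} (H : h.Homotopic φ) :
    ∃ u : X → Fin k → ℝ, Continuous u ∧ ∀ x, h x = φ x + pr (u x) := by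
  obtain ⟨e, he1, he2⟩ := exists_e H
  exact ⟨e, he1, fun x => funext fun i => he2 x i⟩

theorem homotopic_add (φ : C(X, Fin k → AddCircle (1 : ℝ))) {u : X → Fin k → ℝ}
    (hu : Continuous u) :
    (⟨fun x => φ x + pr (u x), φ.continuous.add (pr_cont.comp hu)⟩ :
      C(X, Fin k → AddCircle (1 : ℝ))).Homotopic φ := by
  refine ⟨⟨⟨fun p => φ p.2 + pr ((1 - (p.1 : ℝ)) • u p.2), ?_⟩, ?_, ?_⟩⟩
  · exact (φ.continuous.comp continuous_snd).add (pr_cont.comp
      ((continuous_const.sub (continuous_subtype_val.comp continuous_fst)).smul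
        (hu.comp continuous_snd)))
  · intro x
    show φ x + pr ((1 - ((0 : unitInterval) : ℝ)) • u x) = φ x + pr (u x)
    simp
  · intro x
    show φ x + pr ((1 - ((1 : unitInterval) : ℝ)) • u x) = φ x
    have : (1 - ((1 : unitInterval) : ℝ)) • u x = 0 := by simp
    rw [this, pr_zero, add_zero]

/-- local injectivity is uniform -/
theorem unif_loc {Y : Type*} {h : X → Y} (hl : ∀ x, ∃ U ∈ 𝓝 x, InjOn h U) :
    ∃ δ > 0, ∀ x y, dist x y < δ → h x = h y → x = y := by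
  choose U hU hinj using hl
  obtain ⟨δ, hδ, h1⟩ := lebesgue_number_lemma_of_metric (isCompact_univ (X := X))
    (c := fun x => interior (U x)) (fun x => isOpen_interior)
    (fun x _ => mem_iUnion.2 ⟨x, mem_interior_iff_mem_nhds.2 (hU x)⟩)
  refine ⟨δ, hδ, fun x y hxy he => ?_⟩
  obtain ⟨z, hz⟩ := h1 x (mem_univ x)
  exact hinj z (interior_subset (hz (mem_ball_self hδ)))
    (interior_subset (hz (by rw [mem_ball, dist_comm]; exact hxy))) he

end torus

section manifold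

variable {E : Type*} [NormedAddCommGroup E] [NormedSpace ℝ E] [FiniteDimensional ℝ E]

universe u

variable {M : Type u} [MetricSpace M] [CompactSpace M] [ConnectedSpace M]
    [ChartedSpace E M] [IsManifold 𝓘(ℝ, E) ∞ M]

/-- homologically trivial homoclinic loops and the semiconjugacy -/
theorem man_homtriv_iff (f : Diffeomorph 𝓘(ℝ, E) 𝓘(ℝ, E) M M 1)
    (Es Eu : ∀ x : M, Submodule ℝ (TangentSpace 𝓘(ℝ, E) x)) (hf : IsAnosov f Es Eu)
    {k : ℕ} {A A' : Matrix (Fin k) (Fin k) ℤ} (hD : HD A A')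
    (φ h : C(M, Fin k → AddCircle (1 : ℝ))) (hφ : h.Homotopic φ)
    (hh : ∀ x, h (f x) = torusMap A (h x)) (x y : M) :
    HomTriv f.toHomeomorph φ x y ↔ h y = h x ∧ Asym f x y ∧ Asym f.symm x y := by
  obtain ⟨u, hu, hu2⟩ := exists_u hφ
  have hh' : ∀ x, φ (f.toHomeomorph x) + pr (u (f.toHomeomorph x)) =
      torusMap A (φ x + pr (u x)) := by
    intro x
    rw [← hu2, ← hu2]
    exact hh x
  constructor
  · intro h1
    have h2 := eq_of_homtriv hD φ.continuous hu hh' h1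
    rw [← hu2, ← hu2] at h2
    obtain ⟨α, β, θ, η, hα, hβ, hα0, hβ0, hα1, hβ1, -⟩ := h1
    refine ⟨h2, ?_, ?_⟩
    · have := asym_of_path hα
      rw [hα0, hα1] at this
      exact this
    · have := asym_of_path hβ
      rw [hβ0, hβ1] at this
      exact this
  · rintro ⟨h1, h2, h3⟩
    obtain ⟨α, hα, hα0, hα1⟩ := man_stable_path f Es Eu hf h2
    obtain ⟨β, hβ, hβ0, hβ1⟩ := man_stable_path f.symm Eu Es
      (Pool.Agent.W740.TU.anosov_symm f Es Eu hf) h3
    refine homtriv_of hD φ.continuous hu hh' ?_ hα hβ hα0 hα1 hβ0 hβ1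
    rw [← hu2, ← hu2]
    exact h1

/-- **Main theorem**, for one semiconjugacy. -/
theorem man_tfae (f : Diffeomorph 𝓘(ℝ, E) 𝓘(ℝ, E) M M 1)
    (Es Eu : ∀ x : M, Submodule ℝ (TangentSpace 𝓘(ℝ, E) x)) (hf : IsAnosov f Es Eu)
    {k : ℕ} {A A' : Matrix (Fin k) (Fin k) ℤ} (hD : HD A A')
    (φ h : C(M, Fin k → AddCircle (1 : ℝ))) (hφ : h.Homotopic φ)
    (hh : ∀ x, h (f x) = torusMap A (h x)) :
    List.TFAE [∀ x y, HomTriv f.toHomeomorph φ x y → x = y,
      ∃ B : ℕ, ∀ x, {y | HomTriv f.toHomeomorph φ x y}.encard ≤ B,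
      ∀ y, (h ⁻¹' {y}).Countable,
      TopTransitive f ∧
        Dynamics.coverEntropy f univ ≤ Dynamics.coverEntropy (torusMap A) (range h),
      TopTransitive f ∧ GPS f.toHomeomorph ∧ ∃ N : ℕ, ∀ y, (h ⁻¹' {y}).encard ≤ N] := by
  have key := man_trans_tgt f Es Eu hf (tor hD) (tgt_tor hD) h h.continuous hh
  have h1 : (∀ x y, HomTriv f.toHomeomorph φ x y → x = y) ↔
      ∀ x y, h x = h y → Asym f x y → Asym f.symm x y → x = y := by
    constructor
    · intro h2 x y h3 h4 h5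
      exact h2 x y ((man_homtriv_iff f Es Eu hf hD φ h hφ hh x y).2 ⟨h3.symm, h4, h5⟩)
    · intro h2 x y h3
      obtain ⟨h4, h5, h6⟩ := (man_homtriv_iff f Es Eu hf hD φ h hφ hh x y).1 h3
      exact h2 x y h4.symm h5 h6
  have h2 : ∀ x, {y | HomTriv f.toHomeomorph φ x y} =
      {y | h y = h x ∧ Asym f x y ∧ Asym f.symm x y} := fun x => by
    ext y
    exact man_homtriv_iff f Es Eu hf hD φ h hφ hh x y
  rw [h1]
  simp only [h2]
  tfae_have 1 ↔ 2 := key.out 1 2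
  tfae_have 2 ↔ 3 := key.out 2 3
  tfae_have 3 ↔ 4 := key.out 3 0
  tfae_have 4 ↔ 5 := key.out 0 4
  tfae_finish

/-- **Toral.** -/
theorem man_toral (f : Diffeomorph 𝓘(ℝ, E) 𝓘(ℝ, E) M M 1)
    (Es Eu : ∀ x : M, Submodule ℝ (TangentSpace 𝓘(ℝ, E) x)) (hf : IsAnosov f Es Eu)
    {k : ℕ} {A A' : Matrix (Fin k) (Fin k) ℤ} (hD : HD A A')
    (φ h : C(M, Fin k → AddCircle (1 : ℝ))) (hφ : h.Homotopic φ)
    (hφf : (φ.comp ⟨f, f.continuous⟩).Homotopic ((torusMap A).comp φ))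
    (hh : ∀ x, h (f x) = torusMap A (h x))
    (hT : TopTransitive f) (hG : GPS f.toHomeomorph)
    (hN : ∃ N : ℕ, ∀ y, (h ⁻¹' {y}).encard ≤ N) :
    IsToral f ∧ ∃ q : E → M, IsCoveringMap q ∧ Function.Surjective q := by
  obtain ⟨u, hu, hu2⟩ := exists_u hφ
  obtain ⟨p, hp⟩ := man_pp f Es Eu hf hT
  obtain ⟨N, hN⟩ := hN
  have hfib : (h ⁻¹' {h p}).Finite := Set.finite_of_encard_le_coe (hN (h p))
  have hloc := unif_loc (man_exp_one f Es Eu hf hG (tor hD) (t_T4 k A A' hD) h h.continuous hh hp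
    (Or.inl (hfib.subset inter_subset_left)))
  have hh' : ∀ x, φ (f.toHomeomorph x) + pr (u (f.toHomeomorph x)) =
      torusMap A (φ x + pr (u x)) := by
    intro x
    rw [← hu2, ← hu2]
    exact hh x
  have hpoly : PolyDisp f.toHomeomorph.symm φ := by
    refine poly_of_loc hD φ.continuous hu hh' ?_
    obtain ⟨δ, hδ, h1⟩ := hloc
    refine ⟨δ, hδ, fun x y hxy he => h1 x y hxy ?_⟩
    rw [hu2, hu2]
    exact he
  obtain ⟨-, h1, h2, -⟩ := man_homotopy f Es Eu hf A φ hφf hpoly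
  exact ⟨h1, h2⟩

end manifold

end Pool.Agent.J4H56.HT
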