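import Pool.Agent.J4H56.HT.Gen

/-!
# Injectivity on one open set
-/

set_option autoImplicit false
set_option linter.unusedSectionVars false

open Filter Topology Set
open scoped Manifold ContDiff

namespace Pool.Agent.J4H56.HT

open Pool.Agent.H721R2 Pool.Agent.H789R2.AN Pool.Agent.TH289 Pool.Agent.TH289.K
open Pool.Agent.Y331.EP Pool.Agent.TH289.L

/-- **Injectivity on one open set excludes identified homoclinic pairs.** -/
theorem not_inj_open {X Y : Type*} [MetricSpace X] [MetricSpace Y] [CompactSpace X]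
    {f : X ≃ₜ X} {g : Y ≃ₜ Y} {h : X → Y} {ef eg : ℝ}
    (hE : Ex f ef) (hS : Shad f) (hG : Ex g eg) (hc : Continuous h)
    (hh : ∀ x, h (f x) = g (h x)) {x0 y0 : X} (hne : x0 ≠ y0) (hxy : h x0 = h y0)
    (hm : Hm f x0 y0) {w : X} (hw : ∀ z, MapClusterPt z atTop fun n : ℕ => f^[n] w)
    {U : Set X} (hU : IsOpen U) (hUn : U.Nonempty) : ¬ InjOn h U := by
  intro hinj
  obtain ⟨δ, hδ, L, m₀, hL, hpt⟩ := exists_partner hE hS hG hc hh hne hxy hm
  obtain ⟨n₀, hn₀⟩ := ((hw x0).frequently (Metric.ball_mem_nhds x0 hδ)).exists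
  obtain ⟨y, hy1, hy2, hy3, -⟩ := hpt (f^[n₀] w) hn₀
  have hne' : f^[n₀] w ≠ y := by
    intro he
    rw [he, dist_self] at hy3
    have := hE.pos
    linarith
  obtain ⟨u, hu⟩ := hUn
  obtain ⟨r, hr, hrU⟩ := Metric.isOpen_iff.mp hU u hu
  obtain ⟨N, hN⟩ := eventually_atTop.mp (hy2.1.eventually (gt_mem_nhds (half_pos hr)))
  obtain ⟨m, hm1, hm2⟩ := (frequently_atTop.mp ((hw u).frequently
    (Metric.ball_mem_nhds u (half_pos hr)))) (N + n₀)
  obtain ⟨n, rfl⟩ := Nat.exists_eq_add_of_le' (show n₀ ≤ m by omega)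
  rw [Function.iterate_add_apply] at hm2
  have h1 := hN n (by omega)
  have h2 : dist (f^[n] (f^[n₀] w)) u < r / 2 := hm2
  have h3 : f^[n] (f^[n₀] w) ∈ U := hrU (by
    show dist (f^[n] (f^[n₀] w)) u < r
    linarith)
  have h4 : f^[n] y ∈ U := hrU (by
    show dist (f^[n] y) u < r
    have := dist_triangle_left (f^[n] y) u (f^[n] (f^[n₀] w))
    linarith)
  have h5 : h (f^[n] (f^[n₀] w)) = h (f^[n] y) := by
    rw [semi_iter hh n (f^[n₀] w), semi_iter hh n y, hy1]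
  exact hne' (f.injective.iterate n (hinj h3 h4 h5))

universe u

variable {E : Type*} [NormedAddCommGroup E] [NormedSpace ℝ E] [FiniteDimensional ℝ E]
variable {M : Type u} [MetricSpace M] [CompactSpace M] [ConnectedSpace M]
    [ChartedSpace E M] [IsManifold 𝓘(ℝ, E) ∞ M]

/-- the full list, with injectivity on one open set -/
theorem gen_all' {E' : Type*} [NormedAddCommGroup E'] [NormedSpace ℝ E']
    [FiniteDimensional ℝ E'] {M' : Type*} [MetricSpace M'] [CompactSpace M']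
    [ConnectedSpace M'] [ChartedSpace E' M'] [IsManifold 𝓘(ℝ, E') ∞ M']
    (f : Diffeomorph 𝓘(ℝ, E) 𝓘(ℝ, E) M M 1)
    (Es Eu : ∀ x : M, Submodule ℝ (TangentSpace 𝓘(ℝ, E) x)) (hf : IsAnosov f Es Eu)
    (g : Diffeomorph 𝓘(ℝ, E') 𝓘(ℝ, E') M' M' 1)
    (Es' Eu' : ∀ x : M', Submodule ℝ (TangentSpace 𝓘(ℝ, E') x)) (hg : IsAnosov g Es' Eu')
    (hG : GPS g.toHomeomorph) (h : M → M') (hc : Continuous h) (hh : ∀ x, h (f x) = g (h x)) :
    List.TFAE [TopTransitive f ∧ ∃ U : Set M, IsOpen U ∧ U.Nonempty ∧ InjOn h U,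
      TopTransitive f ∧ ∃ p ∈ Function.periodicPts f, ∃ B : ℕ,
        ∀ y, {q | Asym f p q ∧ Asym f.symm p q ∧ h q = y}.encard ≤ B,
      ∃ x, (∀ z, MapClusterPt z atTop fun n : ℕ => f^[n] x) ∧
        {y | h y = h x ∧ Asym f x y ∧ Asym f.symm x y}.Finite,
      TopTransitive f ∧ GPS f.toHomeomorph ∧ ∃ N : ℕ, ∀ y, (h ⁻¹' {y}).encard ≤ N,
      TopTransitive f ∧ GPS f.toHomeomorph ∧ ∀ x, ∃ U ∈ 𝓝 x, InjOn h U] := by
  have key := gen_all f Es Eu hf g Es' Eu' hg hG h hc hh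
  have hgx := expansive_of_anosov g Es' Eu' hg
  have k25 := (man_trans f Es Eu hf g Es' Eu' hg hG h hc hh).out 1 4
  tfae_have 2 ↔ 3 := key.out 0 1
  tfae_have 3 ↔ 4 := key.out 1 2
  tfae_have 4 ↔ 5 := key.out 2 3
  tfae_have 5 → 1 := by
    rintro ⟨hT, -, hloc⟩
    obtain ⟨x⟩ : Nonempty M := inferInstance
    obtain ⟨U, hU, hinj⟩ := hloc x
    exact ⟨hT, interior U, isOpen_interior, ⟨x, mem_interior_iff_mem_nhds.2 hU⟩,
      hinj.mono interior_subset⟩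
  tfae_have 1 → 4 := by
    rintro ⟨hT, U, hU, hUn, hinj⟩
    refine k25.1 fun x0 y0 hxy h1 h2 => ?_
    by_contra hne
    obtain ⟨eg, hGe⟩ := ex_of_expansive hgx
    obtain ⟨ef, hE⟩ := ex_of_expansive (expansive_of_anosov f Es Eu hf)
    obtain ⟨w, hw⟩ := exists_rec (g := f.toHomeomorph) hT
    exact not_inj_open hE (man_shad f Es Eu hf) hGe hc hh hne hxy
      ((hm_iff f.toHomeomorph x0 y0).2 ⟨h1, h2⟩) hw hU hUn hinj
  tfae_finish

end Pool.Agent.J4H56.HT
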