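import Pool.Agent.J4H56.HT.Bas

set_option autoImplicit false
set_option linter.unusedSectionVars false

open Filter Topology Set Metric unitInterval

namespace Pool.Agent.J4H56.HT

open Pool.Agent.H789R2.AN Pool.Agent.H789R2.GP Pool.Agent.TH289 Pool.Agent.TH289.K
open Pool.Agent.W740.TC (torusMap)

variable {k : ℕ}

/-- points of the torus with small forward orbit have a small lift with bounded forward orbit -/
theorem exists_c {A A' : Matrix (Fin k) (Fin k) ℤ} (h : HD A A') (N : ℕ) : ∃ c > 0,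
    ∀ d : T k, (∀ n, ‖(tor h)^[N * n] d‖ ≤ c) → 1 ≤ N →
      (∃ (K : ℝ) (n₀ : ℕ), ∀ n ≥ n₀, ‖(mv A)^[n] (sm d)‖ ≤ K) ∧
      ∀ n, ‖(mv A)^[n] (sm d)‖ = ‖(tor h)^[n] d‖ := by
  obtain ⟨L, hL, hb, -⟩ := exists_bd A A'
  have hL0 : 0 < L := lt_of_lt_of_le one_pos hL
  refine ⟨1 / (4 * L ^ (N + 1)), by positivity, fun d hd hN => ?_⟩
  have hstep : ∀ z : T k, ‖tor h z‖ ≤ L * ‖z‖ := by
    intro z
    have h1 : tor h z = pr (mv A (sm z)) := by
      rw [pr_mv, pr_sm]
      rfl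
    rw [h1]
    refine (norm_pr _).trans ?_
    have := hb (sm z)
    rwa [norm_sm] at this
  have hsteps : ∀ (j : ℕ) (z : T k), ‖(tor h)^[j] z‖ ≤ L ^ j * ‖z‖ := by
    intro j z
    induction j with
    | zero => simp
    | succ j ih =>
      rw [Function.iterate_succ_apply', pow_succ']
      refine (hstep _).trans ?_
      rw [mul_assoc]
      exact mul_le_mul_of_nonneg_left ih hL0.le
  have hall : ∀ n, ‖(tor h)^[n] d‖ ≤ 1 / (4 * L) := by
    intro n
    have hnn : n = n % N + N * (n / N) := (Nat.mod_add_div n N).symm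
    rw [hnn, Function.iterate_add_apply]
    refine (hsteps _ _).trans ?_
    have h1 := hd (n / N)
    have h2 : L ^ (n % N) ≤ L ^ N := pow_le_pow_right₀ hL (Nat.mod_lt _ (by omega)).le
    calc L ^ (n % N) * ‖(tor h)^[N * (n / N)] d‖ ≤ L ^ N * (1 / (4 * L ^ (N + 1))) :=
          mul_le_mul h2 h1 (norm_nonneg _) (by positivity)
      _ = 1 / (4 * L) := by
          field_simp
          ring
  have hc : L * (1 / (4 * L)) < 1 / 2 := by
    have : L * (1 / (4 * L)) = 1 / 4 := by field_simp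
    rw [this]
    norm_num
  have h3 : ∀ n, ‖(mv A)^[n] (sm d)‖ = ‖(tor h)^[n] d‖ := by
    intro n
    rw [sm_iter h hL0.le hb hc d hall n, norm_sm]
  exact ⟨⟨1 / (4 * L), 0, fun n _ => by rw [h3]; exact hall n⟩, h3⟩

theorem half_of_N {A A' : Matrix (Fin k) (Fin k) ℤ} (h : HD A A') :
    ∃ N₀ : ℕ, 1 ≤ N₀ ∧ ∀ N ≥ N₀, ∃ c₁ > 0, ∀ c ≤ c₁, ∀ d : T k,
      (∀ n, ‖(tor h)^[N * n] d‖ ≤ c) → ∀ n, ‖(tor h)^[N * n] d‖ ≤ c * (1 / 2) ^ n := by
  obtain ⟨-, -, C, l, hC, hl, hl', hf, -, -⟩ := id h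
  have ht : Tendsto (fun n : ℕ => C * l ^ n) atTop (𝓝 0) := by
    have := (tendsto_pow_atTop_nhds_zero_of_lt_one hl.le hl').const_mul C
    simpa using this
  obtain ⟨N₀, hN₀⟩ := eventually_atTop.mp ((tendsto_order.mp ht).2 (1 / 2) (by norm_num))
  refine ⟨N₀ + 1, by omega, fun N hN => ?_⟩
  obtain ⟨c₁, hc, h1⟩ := exists_c h N
  refine ⟨c₁, hc, fun c hcc d hd n => ?_⟩
  obtain ⟨h2, h3⟩ := h1 d (fun n => (hd n).trans hcc) (by omega)
  have h4 := hf _ h2 (N * n)
  rw [h3] at h4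
  have h5 : ‖sm d‖ ≤ c := by
    rw [norm_sm]
    exact hd 0
  have hCl : C * l ^ N ≤ 1 / 2 := (hN₀ N (by omega)).le
  rcases Nat.eq_zero_or_pos n with rfl | hn
  · rw [pow_zero, mul_one]
    exact hd 0
  · have h6 : C * l ^ (N * n) ≤ (1 / 2) ^ n := by
      have h7 : C ≤ C ^ n := le_self_pow₀ hC (by omega)
      calc C * l ^ (N * n) ≤ C ^ n * l ^ (N * n) :=
            mul_le_mul_of_nonneg_right h7 (by positivity)
        _ = (C * l ^ N) ^ n := by rw [mul_pow, pow_mul]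
        _ ≤ (1 / 2) ^ n := pow_le_pow_left₀ (by positivity) hCl n
    calc ‖(tor h)^[N * n] d‖ ≤ C * l ^ (N * n) * ‖sm d‖ := h4
      _ ≤ (1 / 2) ^ n * c := mul_le_mul h6 h5 (norm_nonneg _) (by positivity)
      _ = c * (1 / 2) ^ n := mul_comm _ _

theorem iter_G {G : T k ≃ₜ T k} {F : T k ≃ₜ T k} {N : ℕ} (hG : ∀ x, G x = F^[N] x) (n : ℕ)
    (x : T k) : G^[n] x = F^[N * n] x := by
  induction n with
  | zero => rfl
  | succ n ih =>
    rw [Function.iterate_succ_apply', ih, hG, ← Function.iterate_add_apply, Nat.mul_succ,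
      Nat.add_comm]

theorem t_T1 : S_T1 := by
  intro k A A' h
  obtain ⟨N₁, hN₁, h1⟩ := half_of_N h
  obtain ⟨N₂, hN₂, h2⟩ := half_of_N h.symm
  refine ⟨max N₁ N₂, fun N hN G hG hG' => ?_⟩
  obtain ⟨c₁, hc₁, h3⟩ := h1 N (le_trans (le_max_left _ _) hN)
  obtain ⟨c₂, hc₂, h4⟩ := h2 N (le_trans (le_max_right _ _) hN)
  obtain ⟨-, -, C, l, hC, hl, hl', -, -, S, U, hSU, hS, hU⟩ := id h
  have hC0 : 0 < C := lt_of_lt_of_le one_pos hC
  have hCn : ∀ n : ℕ, C * l ^ n ≤ C := fun n => by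
    have := pow_le_one₀ hl.le hl'.le (n := n)
    calc C * l ^ n ≤ C * 1 := mul_le_mul_of_nonneg_left this hC0.le
      _ = C := mul_one C
  have hd : ∀ (F : T k ≃ₜ T k) (hF : ∀ x, F x = (tor h)^[N] x) (n : ℕ) (x y : T k),
      dist (F^[n] x) (F^[n] y) = ‖(tor h)^[N * n] (x - y)‖ := by
    intro F hF n x y
    rw [iter_G hF, iter_G hF, tor_dist]
  have hd' : ∀ (F : T k ≃ₜ T k) (hF : ∀ x, F x = (tor h.symm)^[N] x) (n : ℕ) (x y : T k),
      dist (F^[n] x) (F^[n] y) = ‖(tor h.symm)^[N * n] (x - y)‖ := by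
    intro F hF n x y
    rw [iter_G hF, iter_G hF, tor_dist]
  refine ⟨min c₁ c₂, lt_min hc₁ hc₂, fun x y hxy n => ?_, fun x y hxy n => ?_, fun ε hε => ?_⟩
  · rw [hd G hG]
    refine h3 _ (min_le_left _ _) (x - y) (fun n => ?_) n
    have := hxy n
    rwa [hd G hG] at this
  · rw [hd' G.symm hG']
    refine h4 _ (min_le_right _ _) (x - y) (fun n => ?_) n
    have := hxy n
    rwa [hd' G.symm hG'] at this
  · refine ⟨ε / C, by positivity, fun x y hxy => ⟨x + pr (S (sm (y - x))), fun n => ?_,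
      fun n => ?_⟩⟩
    · rw [hd G hG, ← sub_sub, sub_self, zero_sub]
      have e1 : (tor h)^[N * n] (-pr (S (sm (y - x)))) =
          -(tor h)^[N * n] (pr (S (sm (y - x)))) := by
        have e2 := tor_iter_sub h (N * n) 0 (pr (S (sm (y - x))))
        have e3 : (tor h)^[N * n] (0 : T k) = 0 := by
          have := tor_iter_sub h (N * n) 0 0
          rwa [sub_self, sub_self] at this
        rw [zero_sub, e3, zero_sub] at e2
        exact e2
      rw [e1, norm_neg, tor_pr]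
      refine (norm_pr _).trans ((hS _ _).trans ?_)
      rw [norm_sm, ← dist_eq_norm, dist_comm]
      calc C * l ^ (N * n) * dist x y ≤ C * (ε / C) :=
            mul_le_mul (hCn _) hxy.le dist_nonneg hC0.le
        _ = ε := by field_simp
    · rw [hd' G.symm hG']
      have e4 : y - (x + pr (S (sm (y - x)))) = pr (U (sm (y - x))) := by
        have e5 : U (sm (y - x)) = sm (y - x) - S (sm (y - x)) :=
          eq_sub_of_add_eq' (hSU (sm (y - x)))
        rw [e5, pr_sub, pr_sm]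
        abel
      rw [e4, tor_pr]
      refine (norm_pr _).trans ((hU _ _).trans ?_)
      rw [norm_sm, ← dist_eq_norm, dist_comm]
      calc C * l ^ (N * n) * dist x y ≤ C * (ε / C) :=
            mul_le_mul (hCn _) hxy.le dist_nonneg hC0.le
        _ = ε := by field_simp

theorem t_T4 : S_T4 := by
  intro k A A' h
  obtain ⟨c₁, hc₁, h1⟩ := exists_c h 1
  obtain ⟨c₂, hc₂, h2⟩ := exists_c h.symm 1
  refine ⟨{p | dist p.1 p.2 < min c₁ c₂}, ?_, fun x y hxy => ?_⟩
  · rw [nhdsSet_diagonal_eq_uniformity]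
    exact Metric.dist_mem_uniformity (lt_min hc₁ hc₂)
  · obtain ⟨h3, -⟩ := h1 (x - y) (fun n => by
      have h5 : dist ((tor h)^[n] x) ((tor h)^[n] y) < min c₁ c₂ := (hxy n).1
      rw [tor_dist] at h5
      rw [one_mul]
      exact h5.le.trans (min_le_left _ _)) le_rfl
    obtain ⟨h4, -⟩ := h2 (x - y) (fun n => by
      have h5 : dist ((tor h).symm^[n] x) ((tor h).symm^[n] y) < min c₁ c₂ := (hxy n).2
      rw [tor_symm, tor_dist] at h5
      rw [one_mul]
      exact h5.le.trans (min_le_right _ _)) le_rfl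
    have h6 := t_H3 k A A' h (sm (x - y)) h3 (Or.inr h4)
    have h7 := pr_sm (x - y)
    rw [h6, pr_zero] at h7
    exact sub_eq_zero.mp h7.symm

end Pool.Agent.J4H56.HT
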