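import Pool.Agent.J4H56.HT.Abs
import Pool.Agent.J4H56.HT.T1

set_option autoImplicit false
set_option linter.unusedSectionVars false

open Filter Topology Set Metric
open scoped Manifold ContDiff

namespace Pool.Agent.J4H56.HT

open Pool.Agent.H721R2 Pool.Agent.H789R2.AN Pool.Agent.H789R2.GP Pool.Agent.TH289
open Pool.Agent.TH289.K Pool.Agent.TH289.L Pool.Agent.Y331.EP
open Pool.Agent.TH304.K289
open Pool.Agent.W740.TC (torusMap PolyDisp UnstablePath)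
open Pool.Agent.W740.TU (anosov_symm)

/-- `x` and `y` are joined by a stable path `α` and an unstable path `β` such that the loop
`α · β⁻¹` is killed by `φ : M → ℝᵏ/ℤᵏ`: the lifts `θ`, `η` of `φ ∘ α`, `φ ∘ β` to `ℝᵏ` have the same
displacement. -/
def HomTriv {M : Type*} [TopologicalSpace M] {k : ℕ} (f : M ≃ₜ M)
    (φ : M → Fin k → AddCircle (1 : ℝ)) (x y : M) : Prop :=
  ∃ (α β : C(unitInterval, M)) (θ η : C(unitInterval, Fin k → ℝ)), StablePath f α ∧ StablePath f.symm β ∧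
    α 0 = x ∧ β 0 = x ∧ α 1 = y ∧ β 1 = y ∧
    (∀ t i, ((θ t i : ℝ) : AddCircle (1 : ℝ)) = φ (α t) i) ∧
    (∀ t i, ((η t i : ℝ) : AddCircle (1 : ℝ)) = φ (β t) i) ∧ θ 1 - θ 0 = η 1 - η 0

section manifold

variable {E : Type*} [NormedAddCommGroup E] [NormedSpace ℝ E] [FiniteDimensional ℝ E]

universe u

variable {M : Type u} [TopologicalSpace M] [T2Space M] [CompactSpace M] [ConnectedSpace M]
    [ChartedSpace E M] [IsManifold 𝓘(ℝ, E) ∞ M]

/-- asymptotic points are joined by stable paths -/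
theorem man_stable_path (f : Diffeomorph 𝓘(ℝ, E) 𝓘(ℝ, E) M M 1)
    (Es Eu : ∀ x : M, Submodule ℝ (TangentSpace 𝓘(ℝ, E) x)) (hA : IsAnosov f Es Eu) {x y : M}
    (hxy : Asym f x y) :
    ∃ α : C(unitInterval, M), StablePath f.toHomeomorph α ∧ α 0 = x ∧ α 1 = y := by
  obtain ⟨m, ee, hee, hemb, hinje⟩ :=
    exists_embedding_euclidean_of_compact (I := 𝓘(ℝ, E)) (M := M)
  let _ : MetricSpace M := hemb.isEmbedding.comapMetricSpace ee
  have hiso : ∀ x y : M, dist x y = ‖ee x - ee y‖ := fun x y => dist_eq_norm (ee x) (ee y)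
  have he1 : ContMDiff 𝓘(ℝ, E) (𝓡 m) 1 ee := hee.of_le (by simp)
  obtain ⟨N, ⟨S, hg, -, -, -⟩, hN⟩ :=
    ((exists_sys_ev hiso he1 hinje f Es Eu hA).and (eventually_ge_atTop 1)).exists
  have : ProperSpace E := FiniteDimensional.proper_real E
  obtain ⟨c, hc⟩ := exists_LP S
  rw [hg] at hc
  have hX : ULC M := ulc_of_charted (X := M) (E := E)
  have hws : WS (iterHomeo f.toHomeomorph N) x y :=
    (WS_iter_iff f.toHomeomorph hN x y).2 ((asym_iff f.toHomeomorph x y).1 hxy)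
  obtain ⟨v, hv0, hv1⟩ := leaf_conn hc hX x y hws
  refine ⟨⟨fun t => (v t).val, SM.val_continuous.comp v.continuous⟩, ?_, ?_, ?_⟩
  · rw [stablePath_iff]
    apply Con.of_iter hN
    intro ε hε
    obtain ⟨n, hn⟩ := path_small hc v hε
    exact ⟨n, fun m hm t => hn m hm t 0⟩
  · show (v 0).val = x
    rw [hv0]
  · show (v 1).val = y
    rw [hv1]

end manifold

open unitInterval

section abs

variable {k : ℕ} {A A' : Matrix (Fin k) (Fin k) ℤ}

theorem asym_of_path {M : Type*} [TopologicalSpace M] {f : M ≃ₜ M} {α : C(I, M)}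
    (h : StablePath f α) : Asym f (α 0) (α 1) := by
  intro 𝒰 h𝒰
  have h1 : ∀ᶠ n in atTop, (f^[n] (α 0), f^[n] (α 1)) ∈ 𝒰 := by
    filter_upwards [h 𝒰 h𝒰] with n hn
    exact hn 1
  exact h1

variable {X : Type*} [MetricSpace X] [CompactSpace X]

theorem semi_symm (hD : HD A A') {f : X ≃ₜ X} {h : X → T k}
    (hh : ∀ x, h (f x) = torusMap A (h x)) (x : X) : h (f.symm x) = torusMap A' (h x) := by
  have h1 := hh (f.symm x)
  rw [f.apply_symm_apply] at h1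
  rw [h1, torusMap_inv hD.mul']

/-- the displacement along stable paths -/
theorem disp_bdd (hD : HD A A') {f : X ≃ₜ X} {φ : X → T k} (hφ : Continuous φ)
    {u : X → Fin k → ℝ} (hu : Continuous u)
    (hh : ∀ x, φ (f x) + pr (u (f x)) = torusMap A (φ x + pr (u x))) {α : C(I, X)}
    (hα : StablePath f α) {θ : C(I, Fin k → ℝ)} (hθ : ∀ t, pr (θ t) = φ (α t)) :
    ∃ (K : ℝ) (n₀ : ℕ), ∀ n ≥ n₀,
      ‖(mv A)^[n] ((θ 1 - θ 0) + (u (α 1) - u (α 0)))‖ ≤ K := by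
  have h1 := t_H1 k A A' hD X f (fun x => φ x + pr (u x)) (hφ.add (pr_cont.comp hu)) hh α
    ⟨fun t => θ t + u (α t), θ.continuous.add (hu.comp α.continuous)⟩ hα (fun t => by
      show pr (θ t + u (α t)) = φ (α t) + pr (u (α t))
      rw [pr_add, hθ])
  obtain ⟨K, n₀, hK⟩ := h1
  refine ⟨K, n₀, fun n hn => ?_⟩
  have h2 := hK n hn
  have e : (θ 1 - θ 0) + (u (α 1) - u (α 0)) = (θ 1 + u (α 1)) - (θ 0 + u (α 0)) := by abel
  rw [e]
  exact h2

theorem homtriv_of (hD : HD A A') {f : X ≃ₜ X} {φ : X → T k} (hφ : Continuous φ)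
    {u : X → Fin k → ℝ} (hu : Continuous u)
    (hh : ∀ x, φ (f x) + pr (u (f x)) = torusMap A (φ x + pr (u x))) {x y : X}
    (hxy : φ y + pr (u y) = φ x + pr (u x)) {α β : C(I, X)} (hα : StablePath f α)
    (hβ : StablePath f.symm β) (hα0 : α 0 = x) (hα1 : α 1 = y) (hβ0 : β 0 = x) (hβ1 : β 1 = y) :
    HomTriv f φ x y := by
  have hh' : ∀ x, φ (f.symm x) + pr (u (f.symm x)) = torusMap A' (φ x + pr (u x)) :=
    fun x => semi_symm hD (h := fun x => φ x + pr (u x)) hh x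
  obtain ⟨θ, hθ0, hθ⟩ := t_H2 k ⟨fun t => φ (α t), hφ.comp α.continuous⟩ (sm (φ (α 0)))
    (pr_sm _)
  obtain ⟨η, hη0, hη⟩ := t_H2 k ⟨fun t => φ (β t), hφ.comp β.continuous⟩ (sm (φ (β 0)))
    (pr_sm _)
  have key : ∀ {B B' : Matrix (Fin k) (Fin k) ℤ} (hB : HD B B') (γ : C(I, X))
      (ζ : C(I, Fin k → ℝ)), γ 0 = x → γ 1 = y → (∀ t, pr (ζ t) = φ (γ t)) →
      (∃ (K : ℝ) (n₀ : ℕ), ∀ n ≥ n₀,
        ‖(mv B)^[n] ((ζ 1 - ζ 0) + (u (γ 1) - u (γ 0)))‖ ≤ K) → ζ 1 - ζ 0 = u x - u y := by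
    intro B B' hB γ ζ h0 h1 hζ hK
    have h2 := t_H3 k B B' hB _ hK (Or.inl (by
      rw [pr_add, pr_sub, pr_sub, hζ, hζ, h0, h1]
      have e : φ y - φ x + (pr (u y) - pr (u x)) =
          (φ y + pr (u y)) - (φ x + pr (u x)) := by abel
      rw [e, hxy, sub_self]))
    rw [h0, h1] at h2
    have h3 := eq_neg_of_add_eq_zero_left h2
    rw [h3, neg_sub]
  refine ⟨α, β, θ, η, hα, hβ, hα0, hβ0, hα1, hβ1, fun t i => congrFun (hθ t) i,
    fun t i => congrFun (hη t) i, ?_⟩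
  rw [key hD α θ hα0 hα1 hθ (disp_bdd hD hφ hu hh hα hθ),
    key hD.symm β η hβ0 hβ1 hη (disp_bdd hD.symm hφ hu hh' hβ hη)]

theorem eq_of_homtriv (hD : HD A A') {f : X ≃ₜ X} {φ : X → T k} (hφ : Continuous φ)
    {u : X → Fin k → ℝ} (hu : Continuous u)
    (hh : ∀ x, φ (f x) + pr (u (f x)) = torusMap A (φ x + pr (u x))) {x y : X}
    (h : HomTriv f φ x y) : φ y + pr (u y) = φ x + pr (u x) := by
  have hh' : ∀ x, φ (f.symm x) + pr (u (f.symm x)) = torusMap A' (φ x + pr (u x)) :=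
    fun x => semi_symm hD (h := fun x => φ x + pr (u x)) hh x
  obtain ⟨α, β, θ, η, hα, hβ, hα0, hβ0, hα1, hβ1, hθ, hη, he⟩ := h
  have hθ' : ∀ t, pr (θ t) = φ (α t) := fun t => funext fun i => hθ t i
  have hη' : ∀ t, pr (η t) = φ (β t) := fun t => funext fun i => hη t i
  have h1 := disp_bdd hD hφ hu hh hα hθ'
  have h2 := disp_bdd hD.symm hφ hu hh' hβ hη'
  rw [hβ0, hβ1, ← he] at h2
  rw [hα0, hα1] at h1
  have h3 := t_H3 k A A' hD _ h1 (Or.inr h2)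
  have h4 : pr ((θ 1 - θ 0) + (u y - u x)) = 0 := by rw [h3, pr_zero]
  rw [pr_add, pr_sub, pr_sub, hθ', hθ', hα0, hα1] at h4
  have e : φ y - φ x + (pr (u y) - pr (u x)) =
      (φ y + pr (u y)) - (φ x + pr (u x)) := by abel
  rw [e] at h4
  exact sub_eq_zero.mp h4

end abs

end Pool.Agent.J4H56.HT
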