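import Pool.Agent.J4H56.HT.Path

set_option autoImplicit false
set_option linter.unusedSectionVars false

open Filter Topology Set Metric unitInterval

namespace Pool.Agent.J4H56.HT

open Pool.Agent.H789R2.AN Pool.Agent.TH289 Pool.Agent.TH289.K
open Pool.Agent.W740.TC (torusMap PolyDisp UnstablePath)

variable {k : ℕ} {A A' : Matrix (Fin k) (Fin k) ℤ} {X : Type*} [MetricSpace X] [CompactSpace X]

/-- pairs that separate -/
theorem exists_rho {f : X ≃ₜ X} {h : X → T k} (hc : Continuous h) {δ : ℝ} (hδ : 0 < δ)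
    (hloc : ∀ x y, dist x y ≤ δ → h x = h y → x = y) :
    ∃ ρ > 0, ∀ x y, dist x y ≤ δ → δ ≤ dist (f x) (f y) → ρ ≤ dist (h x) (h y) := by
  have hK : IsCompact {p : X × X | dist p.1 p.2 ≤ δ ∧ δ ≤ dist (f p.1) (f p.2)} := by
    apply IsClosed.isCompact
    refine (isClosed_le (continuous_fst.dist continuous_snd) continuous_const).inter ?_
    exact isClosed_le continuous_const
      ((f.continuous.comp continuous_fst).dist (f.continuous.comp continuous_snd))
  have hF : Continuous fun p : X × X => dist (h p.1) (h p.2) :=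
    (hc.comp continuous_fst).dist (hc.comp continuous_snd)
  rcases Set.eq_empty_or_nonempty {p : X × X | dist p.1 p.2 ≤ δ ∧ δ ≤ dist (f p.1) (f p.2)} with
    hem | hne
  · refine ⟨1, one_pos, fun x y h1 h2 => ?_⟩
    have h3 : (x, y) ∈ {p : X × X | dist p.1 p.2 ≤ δ ∧ δ ≤ dist (f p.1) (f p.2)} := ⟨h1, h2⟩
    rw [hem] at h3
    exact absurd h3 (Set.notMem_empty _)
  · obtain ⟨p, hp, hmin⟩ := hK.exists_isMinOn hne hF.continuousOn
    rw [isMinOn_iff] at hmin
    have hp1 : dist p.1 p.2 ≤ δ := hp.1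
    have hp2 : δ ≤ dist (f p.1) (f p.2) := hp.2
    have hpos : 0 < dist (h p.1) (h p.2) := by
      rw [dist_pos]
      intro he
      have h3 := hloc p.1 p.2 hp1 he
      rw [h3, dist_self] at hp2
      exact absurd hp2 (not_le.mpr hδ)
    exact ⟨dist (h p.1) (h p.2), hpos, fun x y h1 h2 => hmin (x, y) ⟨h1, h2⟩⟩

theorem semi_it (hD : HD A A') {f : X ≃ₜ X} {h : X → T k}
    (hh : ∀ x, h (f x) = torusMap A (h x)) (n : ℕ) (x : X) :
    h (f^[n] x) = (tor hD)^[n] (h x) := by
  induction n with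
  | zero => rfl
  | succ n ih =>
    rw [Function.iterate_succ_apply', hh, ih, Function.iterate_succ_apply']
    rfl

/-- **Locally injective semiconjugacies displace the unstable leaves.** -/
theorem poly_of_loc (hD : HD A A') {f : X ≃ₜ X} {φ : X → T k} (hφ : Continuous φ)
    {u : X → Fin k → ℝ} (hu : Continuous u)
    (hh : ∀ x, φ (f x) + pr (u (f x)) = torusMap A (φ x + pr (u x)))
    (hloc : ∃ δ > 0, ∀ x y, dist x y < δ → φ x + pr (u x) = φ y + pr (u y) → x = y) :
    PolyDisp f.symm φ := by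
  intro 𝒰 h𝒰
  rw [nhdsSet_diagonal_eq_uniformity, Metric.mem_uniformity_dist] at h𝒰
  obtain ⟨ε, hε, h𝒰⟩ := h𝒰
  obtain ⟨δ₀, hδ₀, hloc⟩ := hloc
  set h : X → T k := fun x => φ x + pr (u x) with hhdef
  have hc : Continuous h := hφ.add (pr_cont.comp hu)
  have hh' : ∀ x, h (f.symm x) = torusMap A' (h x) := fun x => semi_symm hD (h := h) hh x
  set δ := min ε δ₀ / 2 with hδdef
  have hδ : 0 < δ := by
    have := lt_min hε hδ₀
    positivity
  have hδε : δ < ε := by
    have h1 := lt_min hε hδ₀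
    have h2 := min_le_left ε δ₀
    rw [hδdef]
    linarith
  have hδδ : δ < δ₀ := by
    have h1 := lt_min hε hδ₀
    have h2 := min_le_right ε δ₀
    rw [hδdef]
    linarith
  obtain ⟨ρ, hρ, h1⟩ := exists_rho (f := f) hc hδ
    (fun x y hxy he => hloc x y (lt_of_le_of_lt hxy hδδ) he)
  obtain ⟨-, -, C, l, hC, hl, hl', -, hb, -⟩ := id hD
  have hC0 : 0 < C := lt_of_lt_of_le one_pos hC
  obtain ⟨Ku, hKu0, hKu⟩ : ∃ Ku : ℝ, 0 ≤ Ku ∧ ∀ x, ‖u x‖ ≤ Ku := by
    obtain ⟨Ku, h2⟩ := (isCompact_univ (X := X)).exists_bound_of_continuousOn hu.continuousOn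
    exact ⟨|Ku|, abs_nonneg _, fun x => (h2 x (mem_univ x)).trans (le_abs_self _)⟩
  have hlog : 0 < Real.log (1 / l) := Real.log_pos (by rw [lt_div_iff₀ hl]; linarith)
  set Q := C * (1 + 2 * Ku) / ρ with hQ
  have hQ0 : 0 < Q := by positivity
  refine ⟨1 / Real.log (1 / l), (Real.log Q + 1) / Real.log (1 / l), fun γ θ hγ hθ n hn => ?_⟩
  have hθ' : ∀ t, pr (θ t) = φ (γ t) := fun t => funext fun i => hθ t i
  have hγ' : StablePath f.symm γ := hγ
  set D := (θ 1 - θ 0) + (u (γ 1) - u (γ 0)) with hDdef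
  have hbd := disp_bdd hD.symm (f := f.symm) hφ hu hh' hγ' hθ'
  have h2 := hb D hbd
  set r := ‖θ 1 - θ 0‖ with hr
  have hr0 : 0 ≤ r := norm_nonneg _
  have hDn : ‖D‖ ≤ (1 + 2 * Ku) * (1 + r) := by
    have e1 : ‖D‖ ≤ r + (‖u (γ 1)‖ + ‖u (γ 0)‖) :=
      (norm_add_le _ _).trans (add_le_add le_rfl (norm_sub_le _ _))
    have e2 := hKu (γ 1)
    have e3 := hKu (γ 0)
    nlinarith
  have hprD : ∀ m : ℕ, dist (h (f.symm^[m] (γ 0))) (h (f.symm^[m] (γ 1))) ≤ C * l ^ m * ‖D‖ := by
    intro m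
    have e1 : pr ((mv A')^[m] D) = h (f.symm^[m] (γ 1)) - h (f.symm^[m] (γ 0)) := by
      rw [semi_it hD.symm (f := f.symm) (h := h) hh', semi_it hD.symm (f := f.symm) (h := h) hh',
        ← tor_iter_sub, ← tor_pr hD.symm]
      congr 1
      rw [hDdef, pr_add, pr_sub, pr_sub, hθ', hθ']
      exact (add_sub_add_comm _ _ _ _).symm
    rw [dist_comm, dist_eq_norm, ← e1]
    exact (norm_pr _).trans (h2 m)
  -- the last time
  have hlast : dist (f.symm^[n] (γ 0)) (f.symm^[n] (γ 1)) < δ := by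
    by_contra hcon
    push Not at hcon
    have hev : ∀ᶠ m in atTop, dist (f.symm^[m] (γ 0)) (f.symm^[m] (γ 1)) < δ := by
      have hV : {p : X × X | dist p.1 p.2 < δ} ∈ 𝓝ˢ (diagonal X) := by
        rw [nhdsSet_diagonal_eq_uniformity]
        exact Metric.dist_mem_uniformity hδ
      filter_upwards [hγ' _ hV] with m hm
      exact hm 1
    obtain ⟨m₀, hm₀⟩ := eventually_atTop.mp hev
    obtain ⟨m, hm1, hm2, hm3⟩ : ∃ m ≥ n, δ ≤ dist (f.symm^[m] (γ 0)) (f.symm^[m] (γ 1)) ∧
        dist (f.symm^[m + 1] (γ 0)) (f.symm^[m + 1] (γ 1)) < δ := by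
      by_contra hno
      push Not at hno
      have hall : ∀ j : ℕ, δ ≤ dist (f.symm^[n + j] (γ 0)) (f.symm^[n + j] (γ 1)) := by
        intro j
        induction j with
        | zero => exact hcon
        | succ j ih => exact hno (n + j) (by omega) ih
      have h5 := hall m₀
      have h6 := hm₀ (n + m₀) (by omega)
      linarith
    have hf1 : ∀ z, f (f.symm^[m + 1] z) = f.symm^[m] z := fun z => by
      rw [Function.iterate_succ_apply', f.apply_symm_apply]
    have h7 := h1 (f.symm^[m + 1] (γ 0)) (f.symm^[m + 1] (γ 1)) hm3.le (by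
      rw [hf1, hf1]
      exact hm2)
    have h8 := h7.trans (hprD (m + 1))
    have h9 : C * l ^ (m + 1) * ‖D‖ ≤ C * l ^ n * ((1 + 2 * Ku) * (1 + r)) := by
      refine mul_le_mul ?_ hDn (norm_nonneg _) (by positivity)
      refine mul_le_mul_of_nonneg_left ?_ hC0.le
      exact pow_le_pow_of_le_one hl.le hl'.le (by omega)
    have h10 : C * l ^ n * ((1 + 2 * Ku) * (1 + r)) < ρ := by
      have e0 : (Real.log Q + 1 + Real.log (1 + r)) / Real.log (1 / l) ≤ n := by
        have : (Real.log Q + 1 + Real.log (1 + r)) / Real.log (1 / l) =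
            1 / Real.log (1 / l) * Real.log (1 + r) + (Real.log Q + 1) / Real.log (1 / l) := by
          ring
        rw [this]
        exact hn
      rw [div_le_iff₀ hlog] at e0
      have e1 : Real.log (Q * (1 + r) * l ^ n) < 0 := by
        rw [Real.log_mul (by positivity) (by positivity), Real.log_mul hQ0.ne' (by positivity),
          Real.log_pow]
        have e2 : Real.log (1 / l) = - Real.log l := by rw [one_div, Real.log_inv]
        rw [e2] at e0
        linarith
      have e3 : Q * (1 + r) * l ^ n < 1 := by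
        by_contra hcon2
        push Not at hcon2
        exact absurd e1 (not_lt.mpr (Real.log_nonneg hcon2))
      have e4 : C * l ^ n * ((1 + 2 * Ku) * (1 + r)) = ρ * (Q * (1 + r) * l ^ n) := by
        rw [hQ]
        field_simp
      rw [e4]
      calc ρ * (Q * (1 + r) * l ^ n) < ρ * 1 := mul_lt_mul_of_pos_left e3 hρ
        _ = ρ := mul_one ρ
    linarith
  exact h𝒰 (hlast.trans hδε)

end Pool.Agent.J4H56.HT
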